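import Mathlib
import Pool.Agent.H82.NP.Targets
import Pool.Agent.H82.NP.KEY
import Pool.Agent.H33.NP.EA1

/-!
# Half sections of the square root (`MP_ff17e6_an`): the core inequality
-/

set_option autoImplicit false

open Metric Set Filter Topology Polynomial

namespace Pool.Agent.H8.HS

open Pool.Agent.H82.Hp (co Np Fext)
open Pool.Agent.H82.NP

open ComplexConjugate

/-- remove the constant term and halve: log-coefficients of the normalised square root -/
noncomputable def hlf (c : ℕ → ℂ) (k : ℕ) : ℂ := if k = 0 then 0 else c k / 2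

lemma conj_mul_self_one {α : ℂ} (hα : ‖α‖ = 1) : conj α * α = 1 := by
  rw [mul_comm, Complex.mul_conj, Complex.normSq_eq_norm_sq, hα]; simp

/-- difference of two log-coefficients -/
lemma diff_ea {u v : ℕ → ℂ} (h0 : u 0 = v 0) (hu : u 0 = 0) {m : ℕ} (hm : 1 ≤ m)
    (h : ∀ j, j < m → ea u j = ea v j) (h' : ∀ j, j < m → u j = v j) :
    u m - v m = ea u m - ea v m := by
  have e1 := Pool.Agent.H82.NP.ea_rec u m
  have e2 := Pool.Agent.H82.NP.ea_rec v m
  rw [Finset.sum_range_succ] at e1 e2
  have e3 : ∑ j ∈ Finset.range m, (j : ℂ) * u j * ea u (m - j)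
      = ∑ j ∈ Finset.range m, (j : ℂ) * v j * ea v (m - j) := by
    apply Finset.sum_congr rfl
    intro j hj
    rw [Finset.mem_range] at hj
    rcases Nat.eq_zero_or_pos j with hj0 | hj0
    · rw [hj0]; simp
    · rw [h' j hj, h (m - j) (by omega)]
  have e4 : ea u (m - m) = 1 := by
    rw [Nat.sub_self, ea_zero, hu, Complex.exp_zero]
  have e5 : ea v (m - m) = 1 := by
    rw [Nat.sub_self, ea_zero, ← h0, hu, Complex.exp_zero]
  rw [e4, mul_one] at e1
  rw [e5, mul_one] at e2
  have hm0 : (m : ℂ) ≠ 0 := by exact_mod_cast (by omega : m ≠ 0)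
  have e6 : (m : ℂ) * (u m - v m) = (m : ℂ) * (ea u m - ea v m) := by
    linear_combination e2 - e1 - e3
  exact mul_left_cancel₀ hm0 e6

lemma eq_of_ea {u v : ℕ → ℂ} (h0 : u 0 = v 0) (hu : u 0 = 0) {N : ℕ}
    (h : ∀ j, 2 * j < N → ea u j = ea v j) : ∀ j, 2 * j < N → u j = v j := by
  intro j
  induction j using Nat.strong_induction_on with
  | _ j ih =>
    intro hj
    rcases Nat.eq_zero_or_pos j with hj0 | hj0
    · rw [hj0, h0]
    · have h1 := diff_ea h0 hu hj0 (fun i hi => h i (by omega)) (fun i hi => ih i hi (by omega))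
      rw [h j hj, sub_self] at h1
      exact sub_eq_zero.1 h1

/-- exponentials of series that vanish up to half of the order -/
lemma ea_half {x : ℕ → ℂ} (hx0 : x 0 = 0) {n : ℕ} (hx : ∀ k, 2 * k < n → x k = 0) :
    ∀ j, 1 ≤ j → j < n → ea x j = x j := by
  intro j
  induction j using Nat.strong_induction_on with
  | _ j ih =>
    intro hj1 hjn
    have e1 := Pool.Agent.H82.NP.ea_rec x j
    rw [Finset.sum_range_succ, Nat.sub_self, ea_zero, hx0, Complex.exp_zero, mul_one] at e1
    have e2 : ∑ i ∈ Finset.range j, (i : ℂ) * x i * ea x (j - i) = 0 := by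
      apply Finset.sum_eq_zero
      intro i hi
      rw [Finset.mem_range] at hi
      rcases Nat.eq_zero_or_pos i with hi0 | hi0
      · rw [hi0]; simp
      · by_cases h2 : 2 * i < n
        · rw [hx i h2]; simp
        · rw [ih (j - i) (by omega) (by omega) (by omega), hx (j - i) (by omega)]; simp
    rw [e2, zero_add] at e1
    have hm0 : (j : ℂ) ≠ 0 := by exact_mod_cast (by omega : j ≠ 0)
    exact mul_left_cancel₀ hm0 e1

lemma ea_half_top {x : ℕ → ℂ} (hx0 : x 0 = 0) {n : ℕ} (hn : 1 ≤ n)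
    (hx : ∀ k, 2 * k < n → x k = 0) :
    ea x n = x n + ∑ i ∈ Finset.range (n + 1), (if 2 * i = n then x i ^ 2 / 2 else 0) := by
  have e1 := Pool.Agent.H82.NP.ea_rec x n
  rw [Finset.sum_range_succ, Nat.sub_self, ea_zero, hx0, Complex.exp_zero, mul_one] at e1
  have e2 : ∑ i ∈ Finset.range n, (i : ℂ) * x i * ea x (n - i)
      = ∑ i ∈ Finset.range n, (if 2 * i = n then (n : ℂ) * (x i ^ 2 / 2) else 0) := by
    apply Finset.sum_congr rfl
    intro i hi
    rw [Finset.mem_range] at hi
    by_cases h1 : 2 * i = n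
    · rw [if_pos h1, ea_half hx0 hx (n - i) (by omega) (by omega), show n - i = i by omega]
      have h3 : (n : ℂ) = 2 * i := by exact_mod_cast h1.symm
      rw [h3]
      ring
    · rw [if_neg h1]
      by_cases h2 : 2 * i < n
      · rw [hx i h2]; simp
      · rw [ea_half hx0 hx (n - i) (by omega) (by omega), hx (n - i) (by omega)]; simp
  have e3 : ∑ i ∈ Finset.range n, (if 2 * i = n then (n : ℂ) * (x i ^ 2 / 2) else 0)
      = (n : ℂ) * ∑ i ∈ Finset.range n, (if 2 * i = n then x i ^ 2 / 2 else 0) := by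
    rw [Finset.mul_sum]
    apply Finset.sum_congr rfl
    intro i _
    split_ifs <;> simp
  rw [e2, e3] at e1
  rw [Finset.sum_range_succ, if_neg (by omega : ¬ 2 * n = n), add_zero]
  have hm0 : (n : ℂ) ≠ 0 := by exact_mod_cast (by omega : n ≠ 0)
  apply mul_left_cancel₀ hm0
  rw [e1]
  ring

/-- `z^n T` and `P²` for a self-inversive polynomial -/
lemma sq_coeff {n : ℕ} {P : ℂ[X]} (hd : P.natDegree ≤ n) {α : ℂ}
    (hSI : ∀ k, k ≤ n → P.coeff (n - k) = α * conj (P.coeff k)) {lam : ℕ → ℂ}
    (hl : ∀ m, P.coeff m = ea (fun k => lam k / 2) m) {k : ℕ} (hk : k ≤ n) :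
    ea lam (n - k) = α * ac n P k := by
  have e1 : ea lam (n - k) = ∑ j ∈ Finset.range (n - k + 1), P.coeff j * P.coeff (n - k - j) := by
    have h1 := Pool.Agent.H33.NP.t_EA2 (fun k => lam k / 2) (fun k => lam k / 2) (n - k)
    have h2 : (fun k => lam k / 2 + lam k / 2) = lam := by funext k; ring
    rw [h2] at h1
    rw [h1]
    apply Finset.sum_congr rfl
    intro j _
    rw [hl j, hl (n - k - j)]
  rw [e1, ac, Finset.mul_sum]
  have e2 : ∑ j ∈ Finset.range (n + 1), α * (P.coeff j * conj (P.coeff (j + k)))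
      = ∑ j ∈ Finset.range (n - k + 1), α * (P.coeff j * conj (P.coeff (j + k))) := by
    symm
    apply Finset.sum_subset
    · intro j hj
      rw [Finset.mem_range] at *
      omega
    · intro j hj hj2
      rw [Finset.mem_range] at *
      rw [coeff_eq_zero_of_natDegree_lt (by omega : P.natDegree < j + k)]
      simp
  rw [e2]
  apply Finset.sum_congr rfl
  intro j hj
  rw [Finset.mem_range] at hj
  have h3 := hSI (j + k) (by omega)
  rw [show n - k - j = n - (j + k) by omega, h3]
  ring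

/-- the square of a difference `s - α conj s` -/
lemma re_corr {α s : ℂ} (hα : ‖α‖ = 1) : (conj α * (s - α * conj s) ^ 2).re ≤ 0 := by
  have h1 := conj_mul_self_one hα
  have h2 : conj α * (s - α * conj s) ^ 2
      = conj α * s ^ 2 + conj (conj α * s ^ 2) - 2 * (s * conj s) := by
    simp only [map_mul, map_pow, Complex.conj_conj]
    linear_combination (-2 * s * conj s + α * conj s ^ 2) * h1
  have h3 : (conj α * s ^ 2).re ≤ ‖s‖ ^ 2 := by
    calc (conj α * s ^ 2).re ≤ ‖conj α * s ^ 2‖ := Complex.re_le_norm _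
      _ = ‖s‖ ^ 2 := by rw [norm_mul, RCLike.norm_conj, hα, one_mul, norm_pow]
  have h4 : (s * conj s).re = ‖s‖ ^ 2 := by
    rw [Complex.mul_conj, Complex.normSq_eq_norm_sq, Complex.ofReal_re]
  rw [h2, Complex.sub_re, Complex.add_re, Complex.conj_re]
  have h5 : (2 * (s * conj s)).re = 2 * ‖s‖ ^ 2 := by
    have : (2 : ℂ) * (s * conj s) = ((2 : ℝ) : ℂ) * (s * conj s) := by push_cast; ring
    rw [this, Complex.re_ofReal_mul, h4]
  rw [h5]
  linarith

/-- **Core inequality.** -/
theorem core {n : ℕ} (hn : 1 ≤ n) {s : ℝ} {c : ℕ → ℂ} (hc : c ∈ CC n s) {P : ℂ[X]}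
    (hd : P.natDegree = n) (hz : ∀ z, P.eval z = 0 → ‖z‖ = 1) (hN : nrm n P = 1) {α : ℂ}
    (hα : ‖α‖ = 1) (hSI : ∀ k, k ≤ n → P.coeff (n - k) = α * conj (P.coeff k)) {ρ : ℝ}
    (hρ : 0 < ρ) (hm : ∀ k, 2 * k < n → P.coeff k = ρ * ea (hlf c) k)
    (hmid : ∀ k, 2 * k = n → P.coeff k = ρ * ((ea (hlf c) k + α * conj (ea (hlf c) k)) / 2))
    (harg : ea c n * Complex.exp (-c 0) = (‖ea c n * Complex.exp (-c 0)‖ : ℂ) * α)
    (hLOG : T_LOG) :
    ‖ea c n‖ ≤ Real.exp (-(1 - s) * ent (sq P)) := by
  obtain ⟨lam, hlog⟩ := hLOG P (fun z hz1 h0 => by rw [hz z h0] at hz1; exact lt_irrefl _ hz1)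
  -- the value at 0
  have hl0 : Complex.exp (lam 0 / 2) = ρ := by
    have h1 := hm 0 (by omega)
    have h2 := hlog.exp 0
    rw [ea_zero] at h1 h2
    have h3 : hlf c 0 = 0 := by simp [hlf]
    rw [h3, Complex.exp_zero, mul_one] at h1
    rw [← h2, h1]
  have hl1 : Complex.exp (lam 0) = (ρ : ℂ) ^ 2 := by
    have h1 : lam 0 = lam 0 / 2 + lam 0 / 2 := by ring
    rw [h1, Complex.exp_add, hl0, pow_two]
  have hρc : (ρ : ℂ) ≠ 0 := by exact_mod_cast hρ.ne'
  -- ea of half of lam
  have hlf_ea : ∀ m, P.coeff m = ρ * ea (hlf lam) m := by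
    intro m
    rw [hlog.exp m]
    have h1 := Pool.Agent.H33.NP.t_EA5 (hlf lam) (lam 0 / 2) m
    rw [hl0] at h1
    rw [← h1]
    apply Pool.Agent.H33.NP.t_EA6
    intro k _
    by_cases hk : k = 0
    · simp [hk, hlf]
    · simp [hk, hlf]
  have h00 : hlf c 0 = hlf lam 0 := by simp [hlf]
  have h01 : hlf c 0 = 0 := by simp [hlf]
  have hlow : ∀ j, 2 * j < n → ea (hlf c) j = ea (hlf lam) j := by
    intro j hj
    have h1 := hm j hj
    rw [hlf_ea j] at h1
    exact (mul_left_cancel₀ hρc h1).symm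
  have hlow2 := eq_of_ea h00 h01 hlow
  -- the difference
  set x : ℕ → ℂ := fun k => if k = 0 then 0 else c k - lam k with hx
  have hxlow : ∀ k, 2 * k < n → x k = 0 := by
    intro k hk
    have h1 := hlow2 k hk
    by_cases hk0 : k = 0
    · simp [hx, hk0]
    · simp only [hlf, if_neg hk0] at h1
      simp only [hx, if_neg hk0]
      linear_combination 2 * h1
  have hxmid : ∀ k, 2 * k = n → x k = ea (hlf c) k - α * conj (ea (hlf c) k) := by
    intro k hk
    have hk0 : k ≠ 0 := by omega
    have h1 := diff_ea h00 h01 (by omega : 1 ≤ k) (fun j hj => hlow j (by omega))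
      (fun j hj => hlow2 j (by omega))
    have h2 := hmid k hk
    rw [hlf_ea k] at h2
    have h3 := mul_left_cancel₀ hρc h2
    rw [h3] at h1
    simp only [hlf, if_neg hk0] at h1
    simp only [hx, if_neg hk0]
    linear_combination 2 * h1
  have hx0 : x 0 = 0 := by simp [hx]
  -- decomposition of `ea c n`
  have hdec : ea c n = Complex.exp (c 0 - lam 0)
      * ∑ j ∈ Finset.range (n + 1), ea x j * (α * ac n P j) := by
    have h1 := Pool.Agent.H33.NP.t_EA5 (fun k => x k + lam k) (c 0 - lam 0) n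
    have h2 : ea (fun k => if k = 0 then (fun k => x k + lam k) 0 + (c 0 - lam 0)
        else (fun k => x k + lam k) k) n = ea c n := by
      apply Pool.Agent.H33.NP.t_EA6
      intro k _
      by_cases hk : k = 0
      · simp [hk, hx0]
      · simp [hk, hx]
    rw [h2] at h1
    rw [h1, Pool.Agent.H33.NP.t_EA2]
    congr 1
    apply Finset.sum_congr rfl
    intro j hj
    rw [Finset.mem_range] at hj
    rw [sq_coeff hd.le hSI hlog.exp (by omega : j ≤ n)]
  have hac0 : ac n P 0 = 1 := by
    have h1 : ac n P 0 = (nrm n P : ℂ) := by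
      unfold ac nrm
      push_cast
      apply Finset.sum_congr rfl
      intro j _
      rw [add_zero, Complex.mul_conj, Complex.normSq_eq_norm_sq]
      push_cast
      rfl
    rw [h1, hN]; simp
  have hacn : α * ac n P n = (ρ : ℂ) ^ 2 := by
    rw [← sq_coeff hd.le hSI hlog.exp (le_refl n), Nat.sub_self, ea_zero, hl1]
  set corr : ℂ := ∑ i ∈ Finset.range (n + 1), (if 2 * i = n then x i ^ 2 / 2 else 0) with hcorr
  have hsum : conj α * ∑ j ∈ Finset.range (n + 1), ea x j * (α * ac n P j)
      = 1 + ∑ j ∈ Finset.range (n + 1), x j * ac n P j + ρ ^ 2 * (conj α * corr) := by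
    have h1 := conj_mul_self_one hα
    have h2 : ∀ j ∈ Finset.range n, conj α * (ea x j * (α * ac n P j))
        = (if j = 0 then 1 else 0) + x j * ac n P j := by
      intro j hj
      rw [Finset.mem_range] at hj
      by_cases hj0 : j = 0
      · rw [hj0, ea_zero, hx0, Complex.exp_zero, hac0]
        simp only [if_true, mul_one, one_mul, add_zero]
        exact h1
      · rw [if_neg hj0, zero_add, ea_half hx0 hxlow j (by omega) hj]
        linear_combination (x j * ac n P j) * h1
    rw [Finset.mul_sum, Finset.sum_range_succ, Finset.sum_congr rfl h2, Finset.sum_add_distrib,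
      Finset.sum_range_succ (fun j => x j * ac n P j), ea_half_top hx0 hn hxlow, hacn]
    have h3 : ∑ j ∈ Finset.range n, (if j = 0 then (1 : ℂ) else 0) = 1 := by
      rw [Finset.sum_ite_eq' (Finset.range n) 0 (fun _ => (1 : ℂ)), if_pos]
      rw [Finset.mem_range]; omega
    rw [h3]
    have h4 : conj α * (x n * (ρ : ℂ) ^ 2) = x n * ac n P n := by
      rw [← hacn]
      linear_combination (x n * ac n P n) * h1
    linear_combination h4
  have hcorr0 : (conj α * corr).re ≤ 0 := by
    rw [hcorr, Finset.mul_sum, Complex.re_sum]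
    apply Finset.sum_nonpos
    intro i _
    by_cases h1 : 2 * i = n
    · rw [if_pos h1, hxmid i h1]
      have h2 := re_corr (s := ea (hlf c) i) hα
      have h3 : conj α * ((ea (hlf c) i - α * conj (ea (hlf c) i)) ^ 2 / 2)
          = ((1 / 2 : ℝ) : ℂ) * (conj α * (ea (hlf c) i - α * conj (ea (hlf c) i)) ^ 2) := by
        push_cast; ring
      rw [h3, Complex.re_ofReal_mul]
      linarith
    · rw [if_neg h1]; simp
  -- the real identity
  have hkey : ‖ea c n‖ * Real.exp (-(c 0 - lam 0).re)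
      = (1 + ∑ j ∈ Finset.range (n + 1), x j * ac n P j + ρ ^ 2 * (conj α * corr)).re := by
    rw [← hsum]
    have h1 : conj α * ∑ j ∈ Finset.range (n + 1), ea x j * (α * ac n P j)
        = conj α * (ea c n * Complex.exp (-(c 0 - lam 0))) := by
      rw [hdec]
      have h2 : Complex.exp (c 0 - lam 0) * Complex.exp (-(c 0 - lam 0)) = 1 := by
        rw [← Complex.exp_add]; simp
      linear_combination (-(conj α * ∑ j ∈ Finset.range (n + 1), ea x j * (α * ac n P j))) * h2
    rw [h1]
    have h3 : Complex.exp (-(c 0 - lam 0)) = Complex.exp (-c 0) * (ρ : ℂ) ^ 2 := by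
      rw [← hl1, ← Complex.exp_add]
      congr 1
      ring
    have h4 : conj α * (ea c n * Complex.exp (-(c 0 - lam 0)))
        = ((‖ea c n * Complex.exp (-c 0)‖ * ρ ^ 2 : ℝ) : ℂ) := by
      rw [h3]
      push_cast
      linear_combination (conj α * (ρ : ℂ) ^ 2) * harg
        + (((‖ea c n * Complex.exp (-c 0)‖ : ℝ) : ℂ) * (ρ : ℂ) ^ 2) * conj_mul_self_one hα
    rw [h4, Complex.ofReal_re, norm_mul, Complex.norm_exp]
    have h5 : Real.exp (-(c 0 - lam 0).re) = Real.exp ((-c 0).re) * ρ ^ 2 := by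
      have h6 : ‖Complex.exp (lam 0)‖ = ρ ^ 2 := by
        rw [hl1, norm_pow, Complex.norm_real, Real.norm_eq_abs, abs_of_pos hρ]
      rw [← h6, Complex.norm_exp, ← Real.exp_add]
      congr 1
      simp only [Complex.sub_re, Complex.neg_re]
      ring
    rw [h5]
    ring
  set X1 : ℝ := (∑ j ∈ Finset.range (n + 1), x j * ac n P j).re with hX1
  have hle : ‖ea c n‖ * Real.exp (-(c 0 - lam 0).re) ≤ Real.exp X1 := by
    rw [hkey, Complex.add_re, Complex.add_re, Complex.one_re]
    have h1 : ((ρ : ℂ) ^ 2 * (conj α * corr)).re ≤ 0 := by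
      have h2 : (ρ : ℂ) ^ 2 * (conj α * corr) = ((ρ ^ 2 : ℝ) : ℂ) * (conj α * corr) := by
        push_cast; ring
      rw [h2, Complex.re_ofReal_mul]
      exact mul_nonpos_of_nonneg_of_nonpos (sq_nonneg _) hcorr0
    have h3 := Real.add_one_le_exp X1
    linarith
  -- conclusion
  have hAC : ∀ z : ℂ, ‖z‖ = 1 → sq P z = TP n (ac n P) z := fun z hz => sq_eq hd.le hz
  have hAdm : Adm n (ac n P) := by
    refine ⟨hac0, fun z hz => ?_⟩
    rw [← hAC z hz]
    exact sq_nonneg _
  have hent : ent (TP n (ac n P)) = ent (sq P) := by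
    unfold ent av
    apply Real.circleAverage_congr_sphere
    intro z hz
    rw [abs_one, mem_sphere, dist_zero_right] at hz
    simp only
    rw [hAC z hz]
  have h1 : L n c (ac n P) ≤ s * ent (sq P) := by
    rw [← hent]
    exact hc _ hAdm
  have h2 : L n lam (ac n P) = ent (sq P) := by
    rw [← hlog.mom n (ac n P) (by rw [hac0]; simp)]
    unfold ent av
    apply Real.circleAverage_congr_sphere
    intro z hz
    rw [abs_one, mem_sphere, dist_zero_right] at hz
    simp only
    rw [hAC z hz]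
  have h3 : (c 0 - lam 0).re + X1 = L n c (ac n P) - L n lam (ac n P) := by
    have h4 : (c 0 - lam 0) + ∑ j ∈ Finset.range (n + 1), x j * ac n P j
        = ∑ j ∈ Finset.range (n + 1), c j * ac n P j
          - ∑ j ∈ Finset.range (n + 1), lam j * ac n P j := by
      rw [← Finset.sum_sub_distrib, Finset.sum_range_succ' (fun j => x j * ac n P j),
        Finset.sum_range_succ' (fun j => c j * ac n P j - lam j * ac n P j)]
      have h5 : ∀ j ∈ Finset.range n, x (j + 1) * ac n P (j + 1)
          = c (j + 1) * ac n P (j + 1) - lam (j + 1) * ac n P (j + 1) := by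
        intro j _
        simp only [hx, if_neg (Nat.succ_ne_zero j)]
        ring
      rw [Finset.sum_congr rfl h5, hx0, hac0]
      ring
    have h6 := congrArg Complex.re h4
    rw [Complex.add_re, Complex.sub_re (∑ j ∈ Finset.range (n + 1), c j * ac n P j)] at h6
    exact h6
  have h7 : ‖ea c n‖ ≤ Real.exp ((c 0 - lam 0).re + X1) := by
    rw [Real.exp_add]
    have h8 : Real.exp ((c 0 - lam 0).re) * Real.exp (-(c 0 - lam 0).re) = 1 := by
      rw [← Real.exp_add]; simp
    have h9 := mul_le_mul_of_nonneg_left hle (Real.exp_pos ((c 0 - lam 0).re)).le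
    calc ‖ea c n‖ = Real.exp ((c 0 - lam 0).re) * (‖ea c n‖ * Real.exp (-(c 0 - lam 0).re)) := by
          linear_combination (-‖ea c n‖) * h8
      _ ≤ _ := h9
  refine h7.trans (Real.exp_le_exp.2 ?_)
  rw [h3, h2]
  linarith

end Pool.Agent.H8.HS
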