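import Mathlib
import Pool.Agent.H8.HS.Core

/-!
# Case `n = 3` (`MP_ff17e6_an`): the fibre inequality
-/

set_option autoImplicit false

open Metric Set Filter Topology Polynomial

namespace Pool.Agent.H8.HS

open Pool.Agent.H82.NP

open ComplexConjugate

lemma ea_one (c : ℕ → ℂ) : ea c 1 = Complex.exp (c 0) * c 1 := by
  have h := Pool.Agent.H82.NP.ea_succ c 0
  rw [Finset.sum_range_succ, Finset.sum_range_zero] at h
  norm_num at h
  rw [h, ea_zero]
  ring

lemma ea_two (c : ℕ → ℂ) : ea c 2 = Complex.exp (c 0) * (c 2 + c 1 ^ 2 / 2) := by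
  have h := Pool.Agent.H82.NP.ea_succ c 1
  rw [Finset.sum_range_succ, Finset.sum_range_succ, Finset.sum_range_zero] at h
  norm_num at h
  rw [ea_one, ea_zero] at h
  linear_combination h / 2

lemma ea_three (c : ℕ → ℂ) :
    ea c 3 = Complex.exp (c 0) * (c 3 + c 1 * c 2 + c 1 ^ 3 / 6) := by
  have h := Pool.Agent.H82.NP.ea_succ c 2
  rw [Finset.sum_range_succ, Finset.sum_range_succ, Finset.sum_range_succ,
    Finset.sum_range_zero] at h
  norm_num at h
  rw [ea_two, ea_one, ea_zero] at h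
  linear_combination h / 3

/-- **The fibre inequality for `n = 3`.** -/
theorem fibre {s : ℝ} {c : ℕ → ℂ} (hc : c ∈ CC 3 s) {α : ℂ} (hα : ‖α‖ = 1)
    (harg : ea c 3 * Complex.exp (-c 0) = (‖ea c 3 * Complex.exp (-c 0)‖ : ℂ) * α)
    {τ : ℕ → ℂ} (hτ : Adm 3 τ) {M : ℝ} (hM : 0 < M) (h3 : τ 3 = conj α / M)
    (h2 : τ 2 = conj α * c 1 / M) :
    ‖ea c 3‖ ≤ Real.exp (s * ent (TP 3 τ)
      - (1 - Real.log M + (c 1 * τ 1).re - (conj α * c 1 ^ 3).re / (6 * M))) := by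
  have hL := hc τ hτ
  have hMc : (M : ℂ) ≠ 0 := by exact_mod_cast hM.ne'
  have hα1 := conj_mul_self_one hα
  unfold L at hL
  rw [Finset.sum_range_succ, Finset.sum_range_succ, Finset.sum_range_succ, Finset.sum_range_succ,
    Finset.sum_range_zero, hτ.1, zero_add, mul_one, Complex.add_re, Complex.add_re,
    Complex.add_re] at hL
  set E : ℝ := ‖ea c 3 * Complex.exp (-c 0)‖ with hE
  have hexp : Complex.exp (c 0) * Complex.exp (-c 0) = 1 := by rw [← Complex.exp_add]; simp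
  have h4 : (E : ℂ) = conj α * (c 3 + c 1 * c 2 + c 1 ^ 3 / 6) := by
    have h5 : ea c 3 * Complex.exp (-c 0) = c 3 + c 1 * c 2 + c 1 ^ 3 / 6 := by
      rw [ea_three]
      linear_combination (c 3 + c 1 * c 2 + c 1 ^ 3 / 6) * hexp
    rw [← h5, harg]
    linear_combination (-(E : ℂ)) * hα1
  have h6 : (E : ℂ) = (M : ℂ) * (c 2 * τ 2 + c 3 * τ 3) + conj α * c 1 ^ 3 / 6 := by
    rw [h4, h2, h3]
    field_simp
    ring
  have h7 : E = M * ((c 2 * τ 2).re + (c 3 * τ 3).re) + (conj α * c 1 ^ 3).re / 6 := by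
    have h8 := congrArg Complex.re h6
    rw [Complex.ofReal_re, Complex.add_re, Complex.re_ofReal_mul, Complex.add_re] at h8
    rw [h8]
    congr 1
    have h9 : conj α * c 1 ^ 3 / 6 = ((1 / 6 : ℝ) : ℂ) * (conj α * c 1 ^ 3) := by
      push_cast; ring
    rw [h9, Complex.re_ofReal_mul]
    ring
  -- the bound for `E`
  set x : ℝ := (c 0).re with hx
  set K : ℝ := s * ent (TP 3 τ) - (c 1 * τ 1).re + (conj α * c 1 ^ 3).re / (6 * M) with hK
  have h8 : E ≤ M * (K - x) := by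
    rw [h7, hK]
    have h9 : (c 2 * τ 2).re + (c 3 * τ 3).re ≤ s * ent (TP 3 τ) - (c 1 * τ 1).re - x := by
      linarith
    have h10 := mul_le_mul_of_nonneg_left h9 hM.le
    have h11 : M * ((conj α * c 1 ^ 3).re / (6 * M)) = (conj α * c 1 ^ 3).re / 6 := by
      field_simp
    nlinarith
  have h9 : ‖ea c 3‖ = Real.exp x * E := by
    rw [hE, norm_mul, Complex.norm_exp, Complex.neg_re, ← hx]
    have : Real.exp x * Real.exp (-x) = 1 := by rw [← Real.exp_add]; simp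
    linear_combination (-‖ea c 3‖) * this
  have h10 : K - x ≤ Real.exp (K - x - 1) := by
    have := Real.add_one_le_exp (K - x - 1)
    linarith
  rw [h9]
  calc Real.exp x * E ≤ Real.exp x * (M * Real.exp (K - x - 1)) := by
        apply mul_le_mul_of_nonneg_left _ (Real.exp_pos x).le
        exact h8.trans (mul_le_mul_of_nonneg_left h10 hM.le)
    _ = Real.exp (Real.log M) * (Real.exp x * Real.exp (K - x - 1)) := by
        rw [Real.exp_log hM]; ring
    _ = Real.exp (s * ent (TP 3 τ)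
      - (1 - Real.log M + (c 1 * τ 1).re - (conj α * c 1 ^ 3).re / (6 * M))) := by
        rw [← Real.exp_add, ← Real.exp_add]
        congr 1
        rw [hK]
        ring

/-- **Entropy of a zero-free cubic** with coefficients `ρ p_k μ^k`, `p_0 = 1`. -/
theorem ent_cubic (hLOG : T_LOG) {P : ℂ[X]} (hd : P.natDegree ≤ 3)
    (hz : ∀ z : ℂ, ‖z‖ < 1 → P.eval z ≠ 0) {ρ : ℝ} (hρ : 0 < ρ) {μ : ℂ} (hμ : ‖μ‖ = 1)
    {p1 p2 p3 : ℂ} (h0 : P.coeff 0 = ρ) (h1 : P.coeff 1 = ρ * (p1 * μ))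
    (h2 : P.coeff 2 = ρ * (p2 * μ ^ 2)) (h3 : P.coeff 3 = ρ * (p3 * μ ^ 3)) {N : ℝ}
    (hN : ρ ^ 2 * N = 1) (hNp : (N : ℂ) = 1 + p1 * conj p1 + p2 * conj p2 + p3 * conj p3) :
    Adm 3 (ac 3 P) ∧
    ac 3 P 1 = (conj p1 + p1 * conj p2 + p2 * conj p3) * conj μ / N ∧
    ac 3 P 2 = (conj p2 + p1 * conj p3) * conj μ ^ 2 / N ∧
    ac 3 P 3 = conj p3 * conj μ ^ 3 / N ∧
    ent (TP 3 (ac 3 P)) = - Real.log N + 2 / N * (p1 * (conj p1 + p1 * conj p2 + p2 * conj p3)
      + (p2 - p1 ^ 2 / 2) * (conj p2 + p1 * conj p3)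
      + (p3 - p1 * p2 + p1 ^ 3 / 3) * conj p3).re := by
  have hN0 : 0 < N := by
    by_contra h
    push Not at h
    nlinarith [sq_nonneg ρ]
  have hNc : (N : ℂ) ≠ 0 := by exact_mod_cast hN0.ne'
  have hρc : (ρ : ℂ) ≠ 0 := by exact_mod_cast hρ.ne'
  have hNc2 : (ρ : ℂ) ^ 2 * N = 1 := by exact_mod_cast hN
  have hρ2 : (ρ : ℂ) ^ 2 = 1 / N := by
    rw [eq_div_iff hNc]; exact hNc2
  have hμ1 := conj_mul_self_one hμ
  have c0 : conj (P.coeff 0) = ρ := by rw [h0, Complex.conj_ofReal]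
  have c1 : conj (P.coeff 1) = ρ * (conj p1 * conj μ) := by
    rw [h1]; simp only [map_mul, Complex.conj_ofReal]
  have c2 : conj (P.coeff 2) = ρ * (conj p2 * conj μ ^ 2) := by
    rw [h2]; simp only [map_mul, map_pow, Complex.conj_ofReal]
  have c3 : conj (P.coeff 3) = ρ * (conj p3 * conj μ ^ 3) := by
    rw [h3]; simp only [map_mul, map_pow, Complex.conj_ofReal]
  have c4 : P.coeff 4 = 0 := coeff_eq_zero_of_natDegree_lt (by omega)
  have c5 : P.coeff 5 = 0 := coeff_eq_zero_of_natDegree_lt (by omega)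
  have c6 : P.coeff 6 = 0 := coeff_eq_zero_of_natDegree_lt (by omega)
  have a0 : ac 3 P 0 = 1 := by
    unfold ac
    rw [Finset.sum_range_succ, Finset.sum_range_succ, Finset.sum_range_succ,
      Finset.sum_range_succ, Finset.sum_range_zero]
    simp only [zero_add, add_zero]
    rw [c0, c1, c2, c3, h0, h1, h2, h3]
    have e2 : conj μ ^ 2 * μ ^ 2 = 1 := by rw [← mul_pow, hμ1, one_pow]
    have e3 : conj μ ^ 3 * μ ^ 3 = 1 := by rw [← mul_pow, hμ1, one_pow]
    rw [← hNc2, hNp]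
    linear_combination ((ρ : ℂ) ^ 2 * p1 * conj p1) * hμ1 + ((ρ : ℂ) ^ 2 * p2 * conj p2) * e2
      + ((ρ : ℂ) ^ 2 * p3 * conj p3) * e3
  have a1 : ac 3 P 1 = (conj p1 + p1 * conj p2 + p2 * conj p3) * conj μ / N := by
    unfold ac
    rw [Finset.sum_range_succ, Finset.sum_range_succ, Finset.sum_range_succ,
      Finset.sum_range_succ, Finset.sum_range_zero]
    norm_num
    rw [c1, c2, c3, h0, h1, h2, c4, map_zero, mul_zero, add_zero, mul_div_assoc, div_eq_mul_one_div,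
      ← hρ2]
    linear_combination ((ρ : ℂ) ^ 2 * conj μ * (p1 * conj p2 + p2 * conj p3 * (μ * conj μ + 1))) * hμ1
  have a2 : ac 3 P 2 = (conj p2 + p1 * conj p3) * conj μ ^ 2 / N := by
    unfold ac
    rw [Finset.sum_range_succ, Finset.sum_range_succ, Finset.sum_range_succ,
      Finset.sum_range_succ, Finset.sum_range_zero]
    norm_num
    rw [c2, c3, h0, h1, c4, c5, map_zero, mul_zero, mul_zero, mul_div_assoc, div_eq_mul_one_div,
      ← hρ2]
    linear_combination ((ρ : ℂ) ^ 2 * conj μ ^ 2 * (p1 * conj p3)) * hμ1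
  have a3 : ac 3 P 3 = conj p3 * conj μ ^ 3 / N := by
    unfold ac
    rw [Finset.sum_range_succ, Finset.sum_range_succ, Finset.sum_range_succ,
      Finset.sum_range_succ, Finset.sum_range_zero]
    norm_num
    rw [c3, h0, c4, c5, c6, map_zero, mul_zero, mul_zero, mul_zero, mul_div_assoc,
      div_eq_mul_one_div, ← hρ2]
    ring
  have hAC : ∀ z : ℂ, ‖z‖ = 1 → sq P z = TP 3 (ac 3 P) z := fun z hz => sq_eq hd hz
  refine ⟨⟨a0, fun z hz1 => ?_⟩, a1, a2, a3, ?_⟩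
  · rw [← hAC z hz1]
    exact sq_nonneg _
  -- the entropy
  obtain ⟨lam, hlog⟩ := hLOG P hz
  have e0 := hlog.exp 0
  have e1 := hlog.exp 1
  have e2 := hlog.exp 2
  have e3 := hlog.exp 3
  rw [ea_zero, h0] at e0
  rw [ea_one, h1, ← e0] at e1
  rw [ea_two, h2, ← e0] at e2
  rw [ea_three, h3, ← e0] at e3
  have f1 := mul_left_cancel₀ hρc e1
  have f2 := mul_left_cancel₀ hρc e2
  have f3 := mul_left_cancel₀ hρc e3
  have g1 : lam 1 = 2 * p1 * μ := by linear_combination (-2) * f1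
  have g2 : lam 2 = 2 * (p2 - p1 ^ 2 / 2) * μ ^ 2 := by
    rw [g1] at f2
    linear_combination (-2) * f2
  have g3 : lam 3 = 2 * (p3 - p1 * p2 + p1 ^ 3 / 3) * μ ^ 3 := by
    rw [g1, g2] at f3
    linear_combination (-2) * f3
  have g0 : (lam 0).re = - Real.log N := by
    have k1 : Real.exp ((lam 0 / 2).re) = ρ := by
      rw [← Complex.norm_exp, ← e0, Complex.norm_real, Real.norm_eq_abs, abs_of_pos hρ]
    have k2 : Real.exp ((lam 0).re) = 1 / N := by
      have k3 : (lam 0).re = (lam 0 / 2).re + (lam 0 / 2).re := by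
        rw [← Complex.add_re]; congr 1; ring
      rw [k3, Real.exp_add, k1]
      field_simp
      linarith
    have k4 : (lam 0).re = Real.log (1 / N) := by rw [← k2, Real.log_exp]
    rw [k4, one_div, Real.log_inv]
  have hent : ent (TP 3 (ac 3 P)) = L 3 lam (ac 3 P) := by
    rw [← hlog.mom 3 (ac 3 P) (by rw [a0]; simp)]
    unfold ent av
    apply Real.circleAverage_congr_sphere
    intro z hz
    rw [abs_one, mem_sphere, dist_zero_right] at hz
    simp only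
    rw [hAC z hz]
  rw [hent]
  unfold L
  rw [Finset.sum_range_succ, Finset.sum_range_succ, Finset.sum_range_succ, Finset.sum_range_succ,
    Finset.sum_range_zero, zero_add, a0, a1, a2, a3, g1, g2, g3, mul_one]
  have m2 : conj μ ^ 2 * μ ^ 2 = 1 := by rw [← mul_pow, hμ1, one_pow]
  have m3 : conj μ ^ 3 * μ ^ 3 = 1 := by rw [← mul_pow, hμ1, one_pow]
  have key : lam 0 + 2 * p1 * μ * ((conj p1 + p1 * conj p2 + p2 * conj p3) * conj μ / N)
      + 2 * (p2 - p1 ^ 2 / 2) * μ ^ 2 * ((conj p2 + p1 * conj p3) * conj μ ^ 2 / N)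
      + 2 * (p3 - p1 * p2 + p1 ^ 3 / 3) * μ ^ 3 * (conj p3 * conj μ ^ 3 / N)
      = lam 0 + ((2 / N : ℝ) : ℂ) * (p1 * (conj p1 + p1 * conj p2 + p2 * conj p3)
        + (p2 - p1 ^ 2 / 2) * (conj p2 + p1 * conj p3)
        + (p3 - p1 * p2 + p1 ^ 3 / 3) * conj p3) := by
    push_cast
    linear_combination (2 / (N : ℂ) * (p1 * (conj p1 + p1 * conj p2 + p2 * conj p3))) * hμ1
      + (2 / (N : ℂ) * ((p2 - p1 ^ 2 / 2) * (conj p2 + p1 * conj p3))) * m2
      + (2 / (N : ℂ) * ((p3 - p1 * p2 + p1 ^ 3 / 3) * conj p3)) * m3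
  rw [key, Complex.add_re, Complex.re_ofReal_mul, g0]

end Pool.Agent.H8.HS
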