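import Mathlib
import Pool.Agent.H92.NP.Pars
import Pool.Agent.H42.NP.CoLemmas
import Pool.Agent.H8.HS.Fib

/-!
# Case `n = 3` (`MP_ff17e6_an`): multiplication by a singular inner function is a contraction
-/

set_option autoImplicit false

open Metric Set Filter Topology Polynomial

namespace Pool.Agent.H8.HS

open Pool.Agent.H82.NP
open Pool.Agent.H82.Hp (co co_zero analyticAt_zero)
open Pool.Agent.H42.NP

open ComplexConjugate

lemma hk_diff' {a : ℂ} {R : ℝ} (ha : ‖a‖ * R ≤ 1) (ha0 : a ≠ 0) :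
    DifferentiableOn ℂ (hk a) (ball 0 R) := by
  intro z hz
  have hz' : ‖z‖ < R := by simpa using hz
  have h1 : 1 - a * z ≠ 0 := by
    intro h
    have h2 : a * z = 1 := by linear_combination -h
    have h3 : ‖a * z‖ = 1 := by rw [h2, norm_one]
    rw [norm_mul] at h3
    have h4 : 0 < ‖a‖ := norm_pos_iff.2 ha0
    nlinarith
  have h2 : DifferentiableAt ℂ (fun z => 1 - a * z) z := by fun_prop
  have h3 : DifferentiableAt ℂ (hk a) z := ((h2.inv h1).const_mul 2).add_const (-1)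
  exact h3.differentiableWithinAt

/-- the first coefficients of `S(z) (1 + p₁ z + p₂ z² + p₃ z³)`, `S = exp (-r (1 - z) / (1 + z))` -/
theorem bessel (r : ℝ) (hr : 0 ≤ r) (p1 p2 p3 : ℂ) :
    Real.exp (-r) ^ 2 * (1 + ‖p1 + 2 * r‖ ^ 2 + ‖p2 + p1 * (2 * r) + (2 * r ^ 2 - 2 * r)‖ ^ 2
      + ‖p3 + p2 * (2 * r) + p1 * (2 * r ^ 2 - 2 * r) + (4 / 3 * r ^ 3 - 4 * r ^ 2 + 2 * r)‖ ^ 2)
      ≤ 1 + ‖p1‖ ^ 2 + ‖p2‖ ^ 2 + ‖p3‖ ^ 2 := by
  set F : ℝ → ℝ := fun ρ => Real.exp (-r) ^ 2 * (1 + ‖p1 + 2 * r * ρ‖ ^ 2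
    + ‖p2 + p1 * (2 * r * ρ) + (2 * r ^ 2 - 2 * r) * ρ ^ 2‖ ^ 2
    + ‖p3 + p2 * (2 * r * ρ) + p1 * ((2 * r ^ 2 - 2 * r) * ρ ^ 2)
      + (4 / 3 * r ^ 3 - 4 * r ^ 2 + 2 * r) * ρ ^ 3‖ ^ 2) with hF
  have hFc : Continuous F := by
    rw [hF]
    fun_prop
  have hF1 : F 1 = Real.exp (-r) ^ 2 * (1 + ‖p1 + 2 * r‖ ^ 2
      + ‖p2 + p1 * (2 * r) + (2 * r ^ 2 - 2 * r)‖ ^ 2
      + ‖p3 + p2 * (2 * r) + p1 * (2 * r ^ 2 - 2 * r) + (4 / 3 * r ^ 3 - 4 * r ^ 2 + 2 * r)‖ ^ 2) := by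
    simp only [hF, Complex.ofReal_one, mul_one, one_pow]
  rw [← hF1]
  have hmain : ∀ ρ : ℝ, 0 < ρ → ρ < 1 → F ρ ≤ 1 + ‖p1‖ ^ 2 + ‖p2‖ ^ 2 + ‖p3‖ ^ 2 := by
    intro ρ hρ0 hρ1
    set a : ℂ := -(ρ : ℂ) with ha
    have ha0 : a ≠ 0 := by
      rw [ha]; exact neg_ne_zero.2 (by exact_mod_cast hρ0.ne')
    have han : ‖a‖ = ρ := by
      rw [ha, norm_neg, Complex.norm_real, Real.norm_eq_abs, abs_of_pos hρ0]
    set h : ℂ → ℂ := fun z => (-(r : ℂ)) * hk a z with hh
    set b : ℂ → ℂ := fun z => Complex.exp (h z) with hb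
    set G : ℂ[X] := C 1 + C p1 * X + C p2 * X ^ 2 + C p3 * X ^ 3 with hG
    set φ : ℂ → ℂ := fun z => G.eval z with hφ
    have hR : 1 < 1 / ρ := by rw [lt_div_iff₀ hρ0]; linarith
    have hbd : DifferentiableOn ℂ b (ball 0 (1 / ρ)) := by
      have h1 : DifferentiableOn ℂ (hk a) (ball 0 (1 / ρ)) := by
        apply hk_diff' _ ha0
        rw [han]
        field_simp
        exact le_refl _
      exact (h1.const_mul _).cexp
    have hφd : DifferentiableOn ℂ φ (ball 0 (1 / ρ)) := G.differentiable.differentiableOn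
    have hb1 : ∀ z : ℂ, ‖z‖ = 1 → ‖b z‖ ≤ 1 := by
      intro z hz
      have h1 : hk a z = hk (-1) ((ρ : ℂ) * z) := by
        unfold hk
        rw [ha]
        ring
      have h2 : 0 < (hk (-1) ((ρ : ℂ) * z)).re := by
        apply hk_re_pos
        · rw [norm_neg, norm_one]
        · rw [norm_mul, hz, mul_one, Complex.norm_real, Real.norm_eq_abs, abs_of_pos hρ0]
          exact hρ1
      simp only [hb, hh]
      rw [Complex.norm_exp, h1]
      have h3 : (-(r : ℂ) * hk (-1) ((ρ : ℂ) * z)).re = -r * (hk (-1) ((ρ : ℂ) * z)).re := by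
        rw [← Complex.ofReal_neg, Complex.re_ofReal_mul]
      rw [h3]
      rw [Real.exp_le_one_iff]
      nlinarith
    have key := Pool.Agent.H92.NP.t_CONTR (1 / ρ) hR b φ hbd hφd hb1 (fun _ => 1)
      (fun _ _ _ => le_refl _) (fun _ => zero_le_one) 4
    -- coefficients
    have hh1 : DifferentiableOn ℂ h (ball 0 1) :=
      (hk_diff (a := a) (by rw [han]; exact hρ1.le)).const_mul _
    have hhco : ∀ m, co h m = -(r : ℂ) * (if m = 0 then 1 else 2 * a ^ m) := by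
      intro m
      rw [hh, co_const_mul, hk_co (by rw [han]; exact hρ1.le)]
    have hbco : ∀ m, co b m = ea (fun k => co h k) m :=
      Pool.Agent.H33.NP.t_EA1 b h hh1 (fun _ _ => rfl)
    have hg : Complex.exp (co h 0) = (Real.exp (-r) : ℂ) := by
      rw [hhco 0]; simp
    have b0 : co b 0 = (Real.exp (-r) : ℂ) := by
      rw [hbco 0, ea_zero, hg]
    have b1 : co b 1 = (Real.exp (-r) : ℂ) * (2 * r * ρ) := by
      rw [hbco 1, ea_one, hg, hhco 1, ha]
      norm_num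
      ring
    have b2 : co b 2 = (Real.exp (-r) : ℂ) * ((2 * r ^ 2 - 2 * r) * ρ ^ 2) := by
      rw [hbco 2, ea_two, hg, hhco 1, hhco 2, ha]
      norm_num
      ring
    have b3 : co b 3 = (Real.exp (-r) : ℂ) * ((4 / 3 * r ^ 3 - 4 * r ^ 2 + 2 * r) * ρ ^ 3) := by
      rw [hbco 3, ea_three, hg, hhco 1, hhco 2, hhco 3, ha]
      norm_num
      ring
    have hG0 : co φ 0 = 1 := by
      rw [hφ, co_poly, hG]
      simp [coeff_X, coeff_C, coeff_X_pow]
    have hG1 : co φ 1 = p1 := by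
      rw [hφ, co_poly, hG]
      simp [coeff_X, coeff_X_pow, coeff_one]
    have hG2 : co φ 2 = p2 := by
      rw [hφ, co_poly, hG]
      simp [coeff_X, coeff_X_pow, coeff_one]
    have hG3 : co φ 3 = p3 := by
      rw [hφ, co_poly, hG]
      simp [coeff_X, coeff_X_pow, coeff_one]
    have hbA : AnalyticAt ℂ b 0 := analyticAt_zero (hh1.cexp)
    have hφA : AnalyticAt ℂ φ 0 := analyticAt_zero G.differentiable.differentiableOn
    have hmul := fun m => co_mul hbA hφA m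
    have q0 : co (fun z => b z * φ z) 0 = (Real.exp (-r) : ℂ) * 1 := by
      rw [hmul 0, Finset.sum_range_succ, Finset.sum_range_zero, b0, hG0, zero_add]
    have q1 : co (fun z => b z * φ z) 1 = (Real.exp (-r) : ℂ) * (p1 + 2 * r * ρ) := by
      rw [hmul 1, Finset.sum_range_succ, Finset.sum_range_succ, Finset.sum_range_zero]
      norm_num
      rw [← Complex.ofReal_neg, ← Complex.ofReal_exp] at *
      rw [b0, b1, hG0, hG1]
      ring
    have q2 : co (fun z => b z * φ z) 2 = (Real.exp (-r) : ℂ)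
        * (p2 + p1 * (2 * r * ρ) + (2 * r ^ 2 - 2 * r) * ρ ^ 2) := by
      rw [hmul 2, Finset.sum_range_succ, Finset.sum_range_succ, Finset.sum_range_succ,
        Finset.sum_range_zero]
      simp only [Nat.sub_zero, Nat.reduceSub, Nat.sub_self, zero_add]
      rw [b0, b1, b2, hG0, hG1, hG2]
      ring
    have q3 : co (fun z => b z * φ z) 3 = (Real.exp (-r) : ℂ)
        * (p3 + p2 * (2 * r * ρ) + p1 * ((2 * r ^ 2 - 2 * r) * ρ ^ 2)
          + (4 / 3 * r ^ 3 - 4 * r ^ 2 + 2 * r) * ρ ^ 3) := by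
      rw [hmul 3, Finset.sum_range_succ, Finset.sum_range_succ, Finset.sum_range_succ,
        Finset.sum_range_succ, Finset.sum_range_zero]
      simp only [Nat.sub_zero, Nat.reduceSub, Nat.sub_self, zero_add]
      rw [b0, b1, b2, b3, hG0, hG1, hG2, hG3]
      ring
    rw [Finset.sum_range_succ, Finset.sum_range_succ, Finset.sum_range_succ,
      Finset.sum_range_succ, Finset.sum_range_zero, Finset.sum_range_succ, Finset.sum_range_succ,
      Finset.sum_range_succ, Finset.sum_range_succ, Finset.sum_range_zero] at key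
    simp only [one_mul, zero_add] at key
    rw [q0, q1, q2, q3, hG0, hG1, hG2, hG3, norm_one] at key
    simp only [norm_mul, mul_one] at key
    have hgn : ‖(Real.exp (-r) : ℂ)‖ = Real.exp (-r) := by
      rw [Complex.norm_real, Real.norm_eq_abs, abs_of_pos (Real.exp_pos _)]
    rw [hgn] at key
    simp only [hF]
    rw [one_pow] at key
    refine le_trans (le_of_eq ?_) key
    ring
  have hlim : Tendsto F (𝓝[<] 1) (𝓝 (F 1)) := (hFc.tendsto 1).mono_left nhdsWithin_le_nhds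
  apply le_of_tendsto hlim
  have h1 : ∀ᶠ ρ : ℝ in 𝓝[<] 1, 0 < ρ :=
    nhdsWithin_le_nhds (isOpen_Ioi.mem_nhds (by norm_num : (0 : ℝ) < 1))
  filter_upwards [h1, self_mem_nhdsWithin] with ρ h2 h3 using hmain ρ h2 h3

end Pool.Agent.H8.HS
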