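import Mathlib
import Pool.Agent.H82.NP.Main
import Pool.Agent.H42.NP.CoLemmas
import Pool.Agent.H8.HS.Core

/-!
# Half sections of the square root (`MP_ff17e6_an`)
-/

set_option autoImplicit false

open Metric Set Filter Topology Polynomial

namespace Pool.Agent.H8.HS

open Pool.Agent.H82.Hp (co co_zero co_congr analyticAt_zero exists_log Np Fext value_eq mem_Np_hF
  co_Fext sparse)
open Pool.Agent.H82.NP
open Pool.Agent.H42.NP (co_mul co_const_mul co_add co_const)

open ComplexConjugate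

/-- `S` is the square root of `f / f(0)` with `S(0) = 1` -/
def IsSqrt (f S : ℂ → ℂ) : Prop :=
  DifferentiableOn ℂ S (ball 0 1) ∧ S 0 = 1 ∧ ∀ z ∈ ball (0 : ℂ) 1, f z = f 0 * S z ^ 2

/-- the weights: `1` below `n / 2`, `1 / 2` at `n / 2`, `0` above -/
noncomputable def wt (n k : ℕ) : ℂ := if 2 * k < n then 1 else if 2 * k = n then 1 / 2 else 0

/-- the half section `B(z) = ∑_{k < n/2} s_k z^k` (`+ ½ s_{n/2} z^{n/2}` for even `n`) -/
noncomputable def hsec (n : ℕ) (S : ℂ → ℂ) (z : ℂ) : ℂ :=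
  ∑ k ∈ Finset.range (n + 1), wt n k * co S k * z ^ k

/-- the self-inversive polynomial `B(z) + α z^n conj (B (1 / conj z))` -/
noncomputable def comp (n : ℕ) (S : ℂ → ℂ) (α z : ℂ) : ℂ :=
  ∑ k ∈ Finset.range (n + 1), wt n k * (co S k * z ^ k + α * conj (co S k) * z ^ (n - k))

/-- the functions of `N_p` whose completed half section has all its zeros on the unit circle -/
def NpH (p : ℝ) (n : ℕ) : Set (ℂ → ℂ) :=
  {f | f ∈ Np p ∧ ∃ (S : ℂ → ℂ) (α : ℂ), IsSqrt f S ∧ ‖α‖ = 1 ∧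
    co f n = (‖co f n / f 0‖ : ℂ) * α * f 0 ∧ ∀ z : ℂ, comp n S α z = 0 → ‖z‖ = 1}

/-! ### the polynomial -/

/-- the polynomial of `comp` -/
noncomputable def cpol (n : ℕ) (S : ℂ → ℂ) (α : ℂ) : ℂ[X] :=
  ∑ k ∈ Finset.range (n + 1), (C (wt n k * co S k) * X ^ k
    + C (wt n k * (α * conj (co S k))) * X ^ (n - k))

lemma cpol_eval (n : ℕ) (S : ℂ → ℂ) (α z : ℂ) : (cpol n S α).eval z = comp n S α z := by
  unfold cpol comp
  rw [eval_finsetSum]
  apply Finset.sum_congr rfl
  intro k _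
  simp only [eval_add, eval_mul, eval_C, eval_pow, eval_X]
  ring

lemma cpol_coeff (n : ℕ) (S : ℂ → ℂ) (α : ℂ) {j : ℕ} (hj : j ≤ n) :
    (cpol n S α).coeff j = wt n j * co S j + wt n (n - j) * (α * conj (co S (n - j))) := by
  unfold cpol
  rw [finsetSum_coeff]
  simp only [coeff_add, coeff_C_mul_X_pow]
  rw [Finset.sum_add_distrib]
  congr 1
  · rw [Finset.sum_ite_eq, if_pos]
    rw [Finset.mem_range]; omega
  · rw [Finset.sum_eq_single (n - j)]
    · rw [if_pos (by omega)]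
    · intro b hb hbj
      rw [Finset.mem_range] at hb
      rw [if_neg (by omega)]
    · intro h
      exact absurd (Finset.mem_range.2 (by omega)) h

lemma cpol_coeff_gt (n : ℕ) (S : ℂ → ℂ) (α : ℂ) {j : ℕ} (hj : n < j) :
    (cpol n S α).coeff j = 0 := by
  unfold cpol
  rw [finsetSum_coeff]
  apply Finset.sum_eq_zero
  intro k hk
  rw [Finset.mem_range] at hk
  simp only [coeff_add, coeff_C_mul_X_pow]
  rw [if_neg (by omega), if_neg (by omega), add_zero]

lemma wt_lt {n k : ℕ} (h : 2 * k < n) : wt n k = 1 := by simp [wt, h]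
lemma wt_eq {n k : ℕ} (h : 2 * k = n) : wt n k = 1 / 2 := by
  unfold wt
  rw [if_neg (by omega), if_pos h]
lemma wt_gt {n k : ℕ} (h : n < 2 * k) : wt n k = 0 := by
  unfold wt
  rw [if_neg (by omega), if_neg (by omega)]

lemma cpol_low {n : ℕ} (S : ℂ → ℂ) (α : ℂ) {j : ℕ} (hj : 2 * j < n) :
    (cpol n S α).coeff j = co S j := by
  rw [cpol_coeff n S α (by omega), wt_lt hj, wt_gt (by omega)]
  ring

lemma cpol_mid {n : ℕ} (S : ℂ → ℂ) (α : ℂ) {j : ℕ} (hj : 2 * j = n) :
    (cpol n S α).coeff j = (co S j + α * conj (co S j)) / 2 := by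
  rw [cpol_coeff n S α (by omega), show n - j = j by omega, wt_eq hj]
  ring

lemma conj_wt (n k : ℕ) : conj (wt n k) = wt n k := by
  unfold wt
  split_ifs
  · simp
  · rw [map_div₀, map_one, map_ofNat]
  · simp

lemma cpol_SI {n : ℕ} (S : ℂ → ℂ) {α : ℂ} (hα : ‖α‖ = 1) {k : ℕ} (hk : k ≤ n) :
    (cpol n S α).coeff (n - k) = α * conj ((cpol n S α).coeff k) := by
  rw [cpol_coeff n S α hk, cpol_coeff n S α (by omega : n - k ≤ n), show n - (n - k) = k by omega]
  simp only [map_add, map_mul, Complex.conj_conj, conj_wt]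
  linear_combination (-(wt n (n - k) * co S (n - k))) * conj_mul_self_one hα

lemma cpol_deg {n : ℕ} (hn : 1 ≤ n) {S : ℂ → ℂ} (hS : S 0 = 1) {α : ℂ} (hα : ‖α‖ = 1) :
    (cpol n S α).natDegree = n := by
  apply natDegree_eq_of_le_of_coeff_ne_zero
  · rw [natDegree_le_iff_coeff_eq_zero]
    intro N hN
    exact cpol_coeff_gt n S α hN
  · have h1 := cpol_SI (n := n) S hα (Nat.zero_le n)
    rw [Nat.sub_zero] at h1
    rw [h1, cpol_low S α (by omega), co_zero, hS, map_one, mul_one]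
    intro h
    rw [h, norm_zero] at hα
    exact zero_ne_one hα

/-! ### logarithmic coefficients -/

lemma log_data {f S : ℂ → ℂ} (h0 : ∀ z ∈ ball (0 : ℂ) 1, f z ≠ 0) (hS : IsSqrt f S) :
    ∃ h : ℂ → ℂ, DifferentiableOn ℂ h (ball 0 1) ∧ (∀ z ∈ ball (0 : ℂ) 1, f z = Complex.exp (h z)) ∧
      Complex.exp (h 0) = f 0 ∧ ∀ m, ea (hlf (fun k => co h k)) m = co S m := by
  obtain ⟨hSd, hS0, hSf⟩ := hS
  have hz0 : (0 : ℂ) ∈ ball (0 : ℂ) 1 := mem_ball_self one_pos
  have hSn : ∀ z ∈ ball (0 : ℂ) 1, S z ≠ 0 := by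
    intro z hz h1
    have h2 := hSf z hz
    rw [h1] at h2
    exact h0 z hz (by rw [h2]; ring)
  obtain ⟨g, hg, hSg⟩ := exists_log hSd hSn
  have hg0 : Complex.exp (g 0) = 1 := by rw [← hSg 0 hz0, hS0]
  have hf0 : f 0 ≠ 0 := h0 0 hz0
  set κ : ℂ := Complex.log (f 0) - 2 * g 0 with hκ
  have hh : DifferentiableOn ℂ (fun z => 2 * g z + κ) (ball 0 1) := (hg.const_mul 2).add_const κ
  refine ⟨fun z => 2 * g z + κ, hh, ?_, ?_, ?_⟩
  · intro z hz
    show f z = Complex.exp (2 * g z + κ)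
    rw [hSf z hz, hSg z hz]
    have h1 : 2 * g z + κ = (g z + g z) + (Complex.log (f 0) - (g 0 + g 0)) := by rw [hκ]; ring
    rw [h1, Complex.exp_add, Complex.exp_sub, Complex.exp_add, Complex.exp_add, hg0,
      Complex.exp_log hf0]
    ring
  · have h1 : 2 * g 0 + κ = Complex.log (f 0) := by rw [hκ]; ring
    show Complex.exp (2 * g 0 + κ) = f 0
    rw [h1, Complex.exp_log hf0]
  · intro m
    have hA := analyticAt_zero hg
    have hco : ∀ k, k ≠ 0 → co (fun z => 2 * g z + κ) k = 2 * co g k := by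
      intro k hk
      have hB : AnalyticAt ℂ (fun z : ℂ => 2 * g z) 0 := analyticAt_const.mul hA
      rw [co_add hB analyticAt_const, co_const_mul, co_const, if_neg hk, add_zero]
    rw [eaOne S g hg hSg m]
    have h1 := Pool.Agent.H33.NP.t_EA5 (fun k => co g k) (-co g 0) m
    have h2 : ea (hlf (fun k => co (fun z => 2 * g z + κ) k)) m
        = ea (fun k => if k = 0 then (fun k => co g k) 0 + -co g 0 else (fun k => co g k) k) m := by
      apply Pool.Agent.H33.NP.t_EA6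
      intro k _
      by_cases hk : k = 0
      · simp [hk, hlf]
      · simp only [hlf, if_neg hk, hco k hk]
        ring
    rw [h2, h1, co_zero, Complex.exp_neg, hg0, inv_one, one_mul]

/-- coefficients of `f` and of the square root -/
lemma co_sq {f S : ℂ → ℂ} (hS : IsSqrt f S) (m : ℕ) :
    co f m = f 0 * ∑ j ∈ Finset.range (m + 1), co S j * co S (m - j) := by
  obtain ⟨hSd, hS0, hSf⟩ := hS
  have hA := analyticAt_zero hSd
  have h1 : co f m = co (fun z => f 0 * (S z * S z)) m := by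
    apply co_congr
    intro z hz
    rw [hSf z hz]
    ring
  rw [h1, co_const_mul, co_mul hA hA]

/-! ### the bound -/

theorem bound {p : ℝ} (hp : 1 < p) {n : ℕ} (hn : 1 ≤ n) {f : ℂ → ℂ} (hf : f ∈ NpH p n) :
    ‖co f n‖ ≤ Real.exp (-(1 - 1 / p) * eps0) ∧
    (‖co f n‖ = Real.exp (-(1 - 1 / p) * eps0) → ∀ k, 1 ≤ k → 2 * k < n → co f k = 0) := by
  obtain ⟨hfN, S, α, hS, hα, harg, hz⟩ := hf
  obtain ⟨h, hh, hfh, hf0, hlS⟩ := log_data hfN.2.1 hS
  set c : ℕ → ℂ := fun k => co h k with hc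
  have hcc : c ∈ CC n (1 / p) := npccT p hp.le f hfN h hh hfh n
  have hea : ∀ m, co f m = ea c m := eaOne f h hh hfh
  have hf0' : f 0 ≠ 0 := hfN.2.1 0 (mem_ball_self one_pos)
  -- the polynomial
  set G : ℂ[X] := cpol n S α with hG
  have hGd : G.natDegree = n := cpol_deg hn hS.2.1 hα
  have hG0 : G.coeff 0 = 1 := by
    rw [hG, cpol_low S α (by omega), co_zero, hS.2.1]
  have hN : 1 ≤ nrm n G := by
    unfold nrm
    have h1 : ‖G.coeff 0‖ ^ 2 ≤ ∑ k ∈ Finset.range (n + 1), ‖G.coeff k‖ ^ 2 :=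
      Finset.single_le_sum (f := fun k => ‖G.coeff k‖ ^ 2) (fun _ _ => sq_nonneg _)
        (Finset.mem_range.2 (by omega))
    rw [hG0, norm_one] at h1
    linarith
  set ρ : ℝ := 1 / Real.sqrt (nrm n G) with hρ
  have hs0 : 0 < Real.sqrt (nrm n G) := Real.sqrt_pos.2 (by linarith)
  have hρ0 : 0 < ρ := by rw [hρ]; positivity
  have hρ2 : ρ ^ 2 * nrm n G = 1 := by
    rw [hρ, div_pow, one_pow, Real.sq_sqrt (by linarith)]
    field_simp
  have hρc : (ρ : ℂ) ≠ 0 := by exact_mod_cast hρ0.ne'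
  set P : ℂ[X] := C (ρ : ℂ) * G with hP
  have hPc : ∀ k, P.coeff k = ρ * G.coeff k := fun k => by rw [hP, coeff_C_mul]
  have hPd : P.natDegree = n := by rw [hP, natDegree_C_mul hρc, hGd]
  have hPz : ∀ z, P.eval z = 0 → ‖z‖ = 1 := by
    intro z h1
    rw [hP, eval_mul, eval_C, mul_eq_zero] at h1
    rcases h1 with h1 | h1
    · exact absurd h1 hρc
    · rw [hG, cpol_eval] at h1
      exact hz z h1
  have hPN : nrm n P = 1 := by
    rw [← hρ2]
    unfold nrm
    rw [Finset.mul_sum]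
    apply Finset.sum_congr rfl
    intro k _
    rw [hPc k, norm_mul, mul_pow, Complex.norm_real, Real.norm_eq_abs, sq_abs]
  have hPSI : ∀ k, k ≤ n → P.coeff (n - k) = α * conj (P.coeff k) := by
    intro k hk
    rw [hPc, hPc, hG, cpol_SI S hα hk, map_mul, Complex.conj_ofReal]
    ring
  have hm : ∀ k, 2 * k < n → P.coeff k = ρ * ea (hlf c) k := by
    intro k hk
    rw [hPc, hG, cpol_low S α hk, hlS k]
  have hmid : ∀ k, 2 * k = n →
      P.coeff k = ρ * ((ea (hlf c) k + α * conj (ea (hlf c) k)) / 2) := by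
    intro k hk
    rw [hPc, hG, cpol_mid S α hk, hlS k]
  have hc0 : Complex.exp (-c 0) = (f 0)⁻¹ := by
    rw [Complex.exp_neg, hc]
    simp only
    rw [co_zero, hf0]
  have harg' : ea c n * Complex.exp (-c 0) = (‖ea c n * Complex.exp (-c 0)‖ : ℂ) * α := by
    rw [hc0, ← hea n, ← div_eq_mul_inv]
    nth_rewrite 1 [harg]
    field_simp
  have hcore := core hn hcc hPd hPz hPN hα hPSI hρ0 hm hmid harg' logT
  have hen := enT n P hn hPd hPz hPN
  have hn0 : (0 : ℝ) < n := by exact_mod_cast hn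
  have hterm : ∀ j ∈ Finset.range (n + 1),
      0 ≤ ((j : ℝ) * (n - j) / n ^ 2) * ‖P.coeff j‖ ^ 2 := by
    intro j hj
    rw [Finset.mem_range] at hj
    have h1 : (j : ℝ) ≤ n := by exact_mod_cast (by omega : j ≤ n)
    have h2 : (0 : ℝ) ≤ (j : ℝ) := Nat.cast_nonneg j
    have h3 : (0 : ℝ) ≤ n - j := by linarith
    positivity
  have hvv : 0 ≤ vv n P := Finset.sum_nonneg hterm
  have hs1 : 0 < 1 - 1 / p := by
    have : 1 / p < 1 := by rw [div_lt_one (by linarith)]; exact hp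
    linarith
  have hent : eps0 ≤ ent (sq P) := by
    have h1 : 0 ≤ 2 / (3 * (n : ℝ)) * vv n P := by positivity
    linarith
  constructor
  · rw [hea n]
    refine hcore.trans (Real.exp_le_exp.2 ?_)
    nlinarith
  · intro heq
    rw [hea n] at heq
    rw [heq, Real.exp_le_exp] at hcore
    have h1 : ent (sq P) ≤ eps0 := by
      by_contra h2
      push Not at h2
      have := mul_lt_mul_of_pos_left h2 hs1
      linarith
    have h2 : vv n P = 0 := by
      have h3 : 2 / (3 * (n : ℝ)) * vv n P ≤ 0 := by linarith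
      have h4 : (0 : ℝ) < 2 / (3 * (n : ℝ)) := by positivity
      nlinarith
    have h3 : ∀ j, 1 ≤ j → 2 * j < n → co S j = 0 := by
      intro j hj1 hj2
      have h4 := (Finset.sum_eq_zero_iff_of_nonneg hterm).1 h2 j (Finset.mem_range.2 (by omega))
      have h5 : (0 : ℝ) < (j : ℝ) := by exact_mod_cast hj1
      have h6 : (0 : ℝ) < (n : ℝ) - j := by
        have : (j : ℝ) < n := by exact_mod_cast (by omega : j < n)
        linarith
      have h7 : (0 : ℝ) < (j : ℝ) * (n - j) / n ^ 2 := by positivity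
      have h8 : ‖P.coeff j‖ ^ 2 = 0 := by
        rcases mul_eq_zero.1 h4 with h9 | h9
        · exact absurd h9 h7.ne'
        · exact h9
      have h9 : P.coeff j = 0 := norm_eq_zero.1 (pow_eq_zero_iff (two_ne_zero) |>.1 h8)
      rw [hPc, mul_eq_zero] at h9
      rcases h9 with h9 | h9
      · exact absurd h9 hρc
      · rwa [hG, cpol_low S α hj2] at h9
    intro k hk1 hk2
    rw [co_sq hS k]
    have h4 : ∑ j ∈ Finset.range (k + 1), co S j * co S (k - j) = 0 := by
      apply Finset.sum_eq_zero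
      intro j hj
      rw [Finset.mem_range] at hj
      rcases Nat.eq_zero_or_pos j with hj0 | hj0
      · rw [hj0, h3 (k - 0) (by omega) (by omega), mul_zero]
      · rw [h3 j hj0 (by omega), zero_mul]
    rw [h4, mul_zero]

end Pool.Agent.H8.HS
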