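import Mathlib
import Pool.Agent.H8.HS.Main

/-!
# Half sections of the square root (`MP_ff17e6_an`): sufficient conditions
-/

set_option autoImplicit false

open Metric Set Filter Topology Polynomial

namespace Pool.Agent.H8.HS

open Pool.Agent.H82.Hp (co co_zero co_congr analyticAt_zero exists_log Np Fext value_eq mem_Np_hF
  co_Fext sparse)
open Pool.Agent.H82.NP (eps0)
open Pool.Agent.H42.NP (co_mul co_const_mul co_add co_const)

open ComplexConjugate

/-! ### the square root exists -/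

lemma exists_sqrt {f : ℂ → ℂ} (hf : DifferentiableOn ℂ f (ball 0 1))
    (h0 : ∀ z ∈ ball (0 : ℂ) 1, f z ≠ 0) : ∃ S, IsSqrt f S := by
  obtain ⟨h, hh, hfh⟩ := exists_log hf h0
  have hz0 : (0 : ℂ) ∈ ball (0 : ℂ) 1 := mem_ball_self one_pos
  refine ⟨fun z => Complex.exp ((h z - h 0) / 2), ?_, ?_, ?_⟩
  · exact ((hh.sub_const _).div_const 2).cexp
  · simp
  · intro z hz
    simp only
    rw [hfh z hz, hfh 0 hz0, ← Complex.exp_nat_mul, ← Complex.exp_add]
    congr 1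
    push_cast
    ring

/-! ### zero-free half sections -/

/-- the polynomial of `hsec` -/
noncomputable def bpol (n : ℕ) (S : ℂ → ℂ) : ℂ[X] :=
  ∑ k ∈ Finset.range (n + 1), C (wt n k * co S k) * X ^ k

lemma bpol_eval (n : ℕ) (S : ℂ → ℂ) (z : ℂ) : (bpol n S).eval z = hsec n S z := by
  unfold bpol hsec
  rw [eval_finsetSum]
  apply Finset.sum_congr rfl
  intro k _
  simp only [eval_mul, eval_C, eval_pow, eval_X]

lemma bpol_deg (n : ℕ) (S : ℂ → ℂ) : 2 * (bpol n S).natDegree ≤ n := by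
  have h1 : (bpol n S).natDegree ≤ n / 2 := by
    rw [natDegree_le_iff_coeff_eq_zero]
    intro N hN
    unfold bpol
    rw [finsetSum_coeff]
    simp only [coeff_C_mul_X_pow]
    rw [Finset.sum_ite_eq]
    split_ifs with h
    · rw [wt_gt (by omega), zero_mul]
    · rfl
  omega

lemma comp_eq (n : ℕ) (S : ℂ → ℂ) (α : ℂ) {z : ℂ} (hz : z ≠ 0) :
    comp n S α z = hsec n S z + α * (z ^ n * conj (hsec n S (conj z)⁻¹)) := by
  unfold comp hsec
  rw [map_sum, Finset.mul_sum, Finset.mul_sum, ← Finset.sum_add_distrib]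
  apply Finset.sum_congr rfl
  intro k hk
  rw [Finset.mem_range] at hk
  simp only [map_mul, map_pow, map_inv₀, Complex.conj_conj, conj_wt]
  have h1 : z ^ n = z ^ (n - k) * z ^ k := by rw [← pow_add]; congr 1; omega
  have h2 : z ^ k * z⁻¹ ^ k = 1 := by rw [← mul_pow, mul_inv_cancel₀ hz, one_pow]
  rw [h1]
  linear_combination (-(wt n k * α * conj (co S k) * z ^ (n - k))) * h2

lemma factor_le {z β : ℂ} (hz0 : z ≠ 0) (hz : ‖z‖ < 1) (hβ : 1 ≤ ‖β‖) :
    ‖z‖ * ‖(conj z)⁻¹ - β‖ ≤ ‖z - β‖ := by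
  have hc : conj z ≠ 0 := by simpa using hz0
  have h1 : ‖z‖ * ‖(conj z)⁻¹ - β‖ = ‖1 - conj z * β‖ := by
    rw [← RCLike.norm_conj z, ← norm_mul]
    congr 1
    field_simp
  rw [h1]
  have h2 : ‖1 - conj z * β‖ ^ 2 ≤ ‖z - β‖ ^ 2 := by
    rw [← Complex.normSq_eq_norm_sq, ← Complex.normSq_eq_norm_sq]
    have e1 := Complex.normSq_eq_norm_sq z
    have e2 := Complex.normSq_eq_norm_sq β
    rw [Complex.normSq_apply] at e1 e2
    have hz2 : ‖z‖ ^ 2 ≤ 1 := by
      have := norm_nonneg z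
      nlinarith
    have hb2 : 1 ≤ ‖β‖ ^ 2 := by nlinarith
    have h3 : 0 ≤ (1 - ‖z‖ ^ 2) * (‖β‖ ^ 2 - 1) := mul_nonneg (by linarith) (by linarith)
    rw [← e1, ← e2] at h3
    simp only [Complex.normSq_apply, Complex.sub_re, Complex.sub_im, Complex.one_re, Complex.one_im,
      Complex.mul_re, Complex.mul_im, Complex.conj_re, Complex.conj_im]
    nlinarith
  exact le_of_sq_le_sq' h2
where
  le_of_sq_le_sq' {a b : ℂ} (h : ‖a‖ ^ 2 ≤ ‖b‖ ^ 2) : ‖a‖ ≤ ‖b‖ :=
    (pow_le_pow_iff_left₀ (norm_nonneg a) (norm_nonneg b) two_ne_zero).1 h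

lemma prod_le {z : ℂ} (hz0 : z ≠ 0) (hz : ‖z‖ < 1) (s : Multiset ℂ) (hs : ∀ β ∈ s, 1 ≤ ‖β‖) :
    ‖z‖ ^ (Multiset.card s) * ‖(s.map fun β => (conj z)⁻¹ - β).prod‖
      ≤ ‖(s.map fun β => z - β).prod‖ := by
  induction s using Multiset.induction_on with
  | empty => simp
  | cons a s ih =>
    rw [Multiset.map_cons, Multiset.prod_cons, Multiset.map_cons, Multiset.prod_cons,
      Multiset.card_cons, norm_mul, norm_mul, pow_succ]
    have h1 := ih fun β hβ => hs β (Multiset.mem_cons_of_mem hβ)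
    have h2 := factor_le hz0 hz (hs a (Multiset.mem_cons_self a s))
    calc ‖z‖ ^ (Multiset.card s) * ‖z‖
          * (‖(conj z)⁻¹ - a‖ * ‖(s.map fun β => (conj z)⁻¹ - β).prod‖)
        = (‖z‖ * ‖(conj z)⁻¹ - a‖)
          * (‖z‖ ^ (Multiset.card s) * ‖(s.map fun β => (conj z)⁻¹ - β).prod‖) := by ring
      _ ≤ _ := mul_le_mul h2 h1 (by positivity) (norm_nonneg _)

lemma star_le {B : ℂ[X]} (hB : ∀ z : ℂ, ‖z‖ < 1 → B.eval z ≠ 0) {z : ℂ} (hz0 : z ≠ 0)
    (hz : ‖z‖ < 1) : ‖z‖ ^ B.natDegree * ‖B.eval (conj z)⁻¹‖ ≤ ‖B.eval z‖ := by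
  have hB0 : B ≠ 0 := by
    intro h
    exact hB 0 (by simp) (by rw [h, eval_zero])
  have hcard : Multiset.card B.roots = B.natDegree := (IsAlgClosed.splits B).natDegree_eq_card_roots.symm
  have heval : ∀ w : ℂ, B.eval w = B.leadingCoeff * (B.roots.map fun β => w - β).prod := by
    intro w
    have h1 := (IsAlgClosed.splits B).eq_prod_roots
    conv_lhs => rw [h1]
    rw [eval_mul, eval_C, eval_multiset_prod, Multiset.map_map]
    congr 2
    apply Multiset.map_congr rfl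
    intro β _
    simp
  rw [heval, heval z, norm_mul, norm_mul, ← hcard]
  have h1 := prod_le hz0 hz B.roots fun β hβ => by
    by_contra h2
    push Not at h2
    exact hB β h2 ((mem_roots hB0).1 hβ)
  calc ‖z‖ ^ (Multiset.card B.roots)
        * (‖B.leadingCoeff‖ * ‖(B.roots.map fun β => (conj z)⁻¹ - β).prod‖)
      = ‖B.leadingCoeff‖ * (‖z‖ ^ (Multiset.card B.roots)
        * ‖(B.roots.map fun β => (conj z)⁻¹ - β).prod‖) := by ring
    _ ≤ _ := mul_le_mul_of_nonneg_left h1 (norm_nonneg _)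

/-- if the half section has no zero in the disc, then all zeros of `comp` are on the circle -/
theorem comp_zeros {n : ℕ} (hn : 1 ≤ n) {S : ℂ → ℂ} (hS : S 0 = 1) {α : ℂ} (hα : ‖α‖ = 1)
    (hB : ∀ z ∈ ball (0 : ℂ) 1, hsec n S z ≠ 0) {z : ℂ} (hz : comp n S α z = 0) : ‖z‖ = 1 := by
  have hB' : ∀ z : ℂ, ‖z‖ < 1 → (bpol n S).eval z ≠ 0 := by
    intro w hw
    rw [bpol_eval]
    exact hB w (by simpa using hw)
  have hin : ∀ w : ℂ, w ≠ 0 → ‖w‖ < 1 → comp n S α w ≠ 0 := by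
    intro w hw0 hw h1
    rw [comp_eq n S α hw0, ← bpol_eval, ← bpol_eval] at h1
    have h2 := star_le hB' hw0 hw
    have h3 : ‖(bpol n S).eval w‖ = ‖w‖ ^ n * ‖(bpol n S).eval (conj w)⁻¹‖ := by
      have h4 : (bpol n S).eval w = -(α * (w ^ n * conj ((bpol n S).eval (conj w)⁻¹))) := by
        linear_combination h1
      rw [h4, norm_neg, norm_mul, hα, one_mul, norm_mul, norm_pow, RCLike.norm_conj]
    have hd := bpol_deg n S
    have h5 : ‖w‖ ^ n = ‖w‖ ^ (n - (bpol n S).natDegree) * ‖w‖ ^ (bpol n S).natDegree := by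
      rw [← pow_add]
      congr 1
      omega
    rw [h5, mul_assoc] at h3
    have hpos : 0 < ‖(bpol n S).eval w‖ := norm_pos_iff.2 (hB' w hw)
    have h6 : ‖w‖ ^ (n - (bpol n S).natDegree) < 1 :=
      pow_lt_one₀ (norm_nonneg w) hw (by omega)
    have h7 : (0 : ℝ) ≤ ‖w‖ ^ (n - (bpol n S).natDegree) := by positivity
    nlinarith
  by_contra hne
  rcases lt_or_gt_of_ne hne with h1 | h1
  · by_cases hz0 : z = 0
    · rw [hz0, ← cpol_eval, ← coeff_zero_eq_eval_zero, cpol_low S α (by omega), co_zero, hS] at hz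
      exact one_ne_zero hz
    · exact hin z hz0 h1 hz
  · have hz0 : z ≠ 0 := by
      intro h
      rw [h, norm_zero] at h1
      linarith
    have hc : conj z ≠ 0 := by simpa using hz0
    set w : ℂ := (conj z)⁻¹ with hw
    have hw0 : w ≠ 0 := inv_ne_zero hc
    have hw1 : ‖w‖ < 1 := by
      rw [hw, norm_inv, RCLike.norm_conj]
      exact inv_lt_one_of_one_lt₀ h1
    have h2 := hin w hw0 hw1
    apply h2
    have h3 : (conj w)⁻¹ = z := by
      rw [hw, map_inv₀, Complex.conj_conj, inv_inv]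
    have e1 := comp_eq n S α hz0
    have e2 := comp_eq n S α hw0
    rw [h3] at e2
    rw [hz] at e1
    have h4 : conj w = z⁻¹ := by
      rw [hw, map_inv₀, Complex.conj_conj]
    have h5 := conj_mul_self_one hα
    -- conj of the first identity
    have e3 := congrArg conj e1
    simp only [map_add, map_mul, map_pow, Complex.conj_conj, map_zero] at e3
    have h6 : conj z = w⁻¹ := by rw [hw, inv_inv]
    rw [h6] at e3
    have h7 : w ^ n * w⁻¹ ^ n = 1 := by rw [← mul_pow, mul_inv_cancel₀ hw0, one_pow]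
    rw [e2]
    have h8 : hsec n S w = hsec n S (w⁻¹)⁻¹ := by rw [inv_inv]
    rw [h8]
    linear_combination (-(α * w ^ n)) * e3 - (hsec n S (w⁻¹)⁻¹) * h7
      - (w ^ n * w⁻¹ ^ n * hsec n S (w⁻¹)⁻¹) * h5

lemma hsec_ne_zero {n : ℕ} (hn : 1 ≤ n) {S : ℂ → ℂ} (hS : S 0 = 1)
    (h : ∑ k ∈ Finset.range n, ‖wt n (k + 1) * co S (k + 1)‖ ≤ 1) {z : ℂ}
    (hz : z ∈ ball (0 : ℂ) 1) : hsec n S z ≠ 0 := by
  have hz1 : ‖z‖ < 1 := by simpa using hz
  intro h0
  unfold hsec at h0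
  rw [Finset.sum_range_succ', pow_zero, mul_one, wt_lt (by omega : 2 * 0 < n), one_mul, co_zero,
    hS] at h0
  have h1 : ∑ k ∈ Finset.range n, wt n (k + 1) * co S (k + 1) * z ^ (k + 1) = -1 := by
    linear_combination h0
  have h2 : (1 : ℝ) = ‖∑ k ∈ Finset.range n, wt n (k + 1) * co S (k + 1) * z ^ (k + 1)‖ := by
    rw [h1, norm_neg, norm_one]
  have h3 : ‖∑ k ∈ Finset.range n, wt n (k + 1) * co S (k + 1) * z ^ (k + 1)‖
      ≤ ∑ k ∈ Finset.range n, ‖wt n (k + 1) * co S (k + 1)‖ * ‖z‖ := by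
    refine (norm_sum_le _ _).trans (Finset.sum_le_sum fun k _ => ?_)
    rw [norm_mul (wt n (k + 1) * co S (k + 1)), norm_pow]
    apply mul_le_mul_of_nonneg_left _ (norm_nonneg _)
    rw [pow_succ]
    have h4 : ‖z‖ ^ k ≤ 1 := pow_le_one₀ (norm_nonneg z) hz1.le
    nlinarith [norm_nonneg z]
  rw [← Finset.sum_mul] at h3
  have h5 : (∑ k ∈ Finset.range n, ‖wt n (k + 1) * co S (k + 1)‖) * ‖z‖ ≤ 1 * ‖z‖ :=
    mul_le_mul_of_nonneg_right h (norm_nonneg z)
  linarith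

/-- zero-free half section -/
theorem mem_of_hsec {p : ℝ} {n : ℕ} (hn : 1 ≤ n) {f S : ℂ → ℂ} (hf : f ∈ Np p) (hS : IsSqrt f S)
    (hB : ∀ z ∈ ball (0 : ℂ) 1, hsec n S z ≠ 0) : f ∈ NpH p n := by
  have hf0 : f 0 ≠ 0 := hf.2.1 0 (mem_ball_self one_pos)
  by_cases ha : co f n = 0
  · refine ⟨hf, S, 1, hS, norm_one, ?_, fun z hz => comp_zeros hn hS.2.1 norm_one hB hz⟩
    rw [ha]; simp
  · have hne : co f n / f 0 ≠ 0 := div_ne_zero ha hf0
    have hn0 : (‖co f n / f 0‖ : ℂ) ≠ 0 := by exact_mod_cast (norm_pos_iff.2 hne).ne'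
    have hα : ‖co f n / f 0 / (‖co f n / f 0‖ : ℂ)‖ = 1 := by
      rw [norm_div, Complex.norm_real, norm_norm]
      exact div_self (norm_pos_iff.2 hne).ne'
    refine ⟨hf, S, co f n / f 0 / (‖co f n / f 0‖ : ℂ), hS, hα, ?_,
      fun z hz => comp_zeros hn hS.2.1 hα hB hz⟩
    field_simp

end Pool.Agent.H8.HS
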