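import Mathlib
import Pool.Agent.H8.HS.Suff

/-!
# Case `n = 3` (`MP_ff17e6_an`): covering the half-jets
-/

set_option autoImplicit false

open Metric Set Filter Topology Polynomial

namespace Pool.Agent.H8.HS

open ComplexConjugate

open Pool.Agent.H82.Hp (co co_zero)

/-- `r / sinh r` -/
noncomputable def Bf (r : ℝ) : ℝ := if r = 0 then 1 else r / Real.sinh r

/-- `1 + r coth r` -/
noncomputable def Af (r : ℝ) : ℝ := 1 + Bf r * Real.cosh r

lemma Bf_zero : Bf 0 = 1 := by simp [Bf]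
lemma Bf_pos' {r : ℝ} (hr : 0 < r) : Bf r = r / Real.sinh r := by simp [Bf, hr.ne']

lemma Bf_pos {r : ℝ} (hr : 0 ≤ r) : 0 < Bf r := by
  rcases hr.eq_or_lt with h | h
  · rw [← h, Bf_zero]; norm_num
  · rw [Bf_pos' h]
    exact div_pos h (Real.sinh_pos_iff.2 h)

lemma Bf_le_one {r : ℝ} (hr : 0 ≤ r) : Bf r ≤ 1 := by
  rcases hr.eq_or_lt with h | h
  · rw [← h, Bf_zero]
  · rw [Bf_pos' h, div_le_one (Real.sinh_pos_iff.2 h)]
    exact Real.self_le_sinh_iff.2 h.le

lemma Bf_cont : Continuous Bf := by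
  rw [continuous_iff_continuousAt]
  intro x
  by_cases hx : x = 0
  · subst hx
    have h1 : HasDerivAt Real.sinh 1 0 := by
      have := Real.hasDerivAt_sinh 0
      rwa [Real.cosh_zero] at this
    have h2 := (hasDerivAt_iff_tendsto_slope.1 h1)
    have h3 : Tendsto (fun r => (slope Real.sinh 0 r)⁻¹) (𝓝[≠] 0) (𝓝 1) := by
      have := h2.inv₀ (one_ne_zero)
      rwa [inv_one] at this
    rw [continuousAt_iff_punctured_nhds, Bf_zero]
    refine h3.congr' ?_
    filter_upwards [self_mem_nhdsWithin] with r hr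
    have hr' : r ≠ 0 := hr
    rw [slope_def_field, Real.sinh_zero, sub_zero, sub_zero, inv_div]
    simp [Bf, hr']
  · have h1 : Real.sinh x ≠ 0 := by
      rw [Ne, Real.sinh_eq_zero]; exact hx
    have h2 : ContinuousAt (fun r => r / Real.sinh r) x :=
      continuousAt_id.div Real.continuous_sinh.continuousAt h1
    refine h2.congr ?_
    filter_upwards [isOpen_ne.mem_nhds hx] with r hr
    have hr' : r ≠ 0 := hr
    simp [Bf, hr']

lemma Af_cont : Continuous Af := by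
  unfold Af
  exact continuous_const.add (Bf_cont.mul Real.continuous_cosh)

lemma Af_zero : Af 0 = 2 := by
  unfold Af; rw [Bf_zero, Real.cosh_zero]; norm_num

lemma le_Af {r : ℝ} (hr : 0 ≤ r) : 1 + r ≤ Af r := by
  unfold Af
  rcases hr.eq_or_lt with h | h
  · rw [← h, Bf_zero, Real.cosh_zero]; norm_num
  · rw [Bf_pos' h]
    have h1 := Real.sinh_pos_iff.2 h
    have h2 : Real.sinh r ≤ Real.cosh r := by
      rw [Real.sinh_eq, Real.cosh_eq]
      have := Real.exp_pos (-r)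
      linarith
    have h3 : r ≤ r / Real.sinh r * Real.cosh r := by
      rw [div_mul_eq_mul_div, le_div_iff₀ h1]
      exact mul_le_mul_of_nonneg_left h2 h.le
    linarith

/-- the cubic `A λ³ - w λ² + α B` -/
noncomputable def qp (w α : ℂ) (r : ℝ) : ℂ[X] :=
  C ((Af r : ℂ)) * X ^ 3 - C w * X ^ 2 + C (α * (Bf r : ℂ))

lemma qp_eval (w α : ℂ) (r : ℝ) (z : ℂ) :
    (qp w α r).eval z = (Af r : ℂ) * z ^ 3 - w * z ^ 2 + α * (Bf r : ℂ) := by
  unfold qp
  simp only [eval_add, eval_sub, eval_mul, eval_C, eval_pow, eval_X]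

lemma qp_deg (w α : ℂ) {r : ℝ} (hr : 0 ≤ r) : (qp w α r).natDegree = 3 := by
  have h1 : Af r ≠ 0 := by
    have := le_Af hr
    linarith
  unfold qp
  compute_degree!

lemma qp_lead (w α : ℂ) {r : ℝ} (hr : 0 ≤ r) : (qp w α r).leadingCoeff = (Af r : ℂ) := by
  rw [leadingCoeff, qp_deg w α hr]
  unfold qp
  simp only [coeff_add, coeff_sub, coeff_C_mul, coeff_X_pow, coeff_C]
  norm_num

/-- a polynomial with all roots in the open disc is large outside -/
lemma big_of_roots {P : ℂ[X]} (hP : P ≠ 0) (h : ∀ z, P.eval z = 0 → ‖z‖ < 1) {z : ℂ}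
    (hz : 1 < ‖z‖) : ‖P.leadingCoeff‖ * (‖z‖ - 1) ^ P.natDegree ≤ ‖P.eval z‖ := by
  have hcard : Multiset.card P.roots = P.natDegree :=
    (IsAlgClosed.splits P).natDegree_eq_card_roots.symm
  have heval : P.eval z = P.leadingCoeff * (P.roots.map fun β => z - β).prod := by
    have h1 := (IsAlgClosed.splits P).eq_prod_roots
    conv_lhs => rw [h1]
    rw [eval_mul, eval_C, eval_multiset_prod, Multiset.map_map]
    congr 2
    apply Multiset.map_congr rfl
    intro β _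
    simp
  have hprod : ∀ s : Multiset ℂ, (∀ β ∈ s, ‖β‖ < 1) →
      (‖z‖ - 1) ^ (Multiset.card s) ≤ ‖(s.map fun β => z - β).prod‖ := by
    intro s
    induction s using Multiset.induction_on with
    | empty => intro _; simp
    | cons a s ih =>
      intro hs
      rw [Multiset.map_cons, Multiset.prod_cons, Multiset.card_cons, norm_mul, pow_succ, mul_comm]
      have h1 := ih fun β hβ => hs β (Multiset.mem_cons_of_mem hβ)
      have h2 : ‖z‖ - 1 ≤ ‖z - a‖ := by
        have h3 := norm_sub_norm_le z a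
        have h4 := hs a (Multiset.mem_cons_self a s)
        linarith
      exact mul_le_mul h2 h1 (pow_nonneg (by linarith) _) (norm_nonneg _)
  rw [heval, norm_mul, ← hcard]
  exact mul_le_mul_of_nonneg_left (hprod P.roots fun β hβ => h β ((mem_roots hP).1 hβ))
    (norm_nonneg _)

/-- either all roots of `q_0` are in the open disc, or some `q_r` has a root on the circle -/
lemma exists_circle (w α : ℂ) (hα : ‖α‖ = 1) (h : ∃ z : ℂ, 1 ≤ ‖z‖ ∧ (qp w α 0).eval z = 0) :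
    ∃ r : ℝ, 0 ≤ r ∧ ∃ z : ℂ, ‖z‖ = 1 ∧ (qp w α r).eval z = 0 := by
  set R : Set ℝ := {r | 0 ≤ r ∧ ∃ z : ℂ, 1 ≤ ‖z‖ ∧ (qp w α r).eval z = 0} with hR
  have h0 : (0 : ℝ) ∈ R := ⟨le_refl 0, h⟩
  -- roots are bounded
  have hbd : ∀ r, 0 ≤ r → ∀ z : ℂ, 1 ≤ ‖z‖ → (qp w α r).eval z = 0 →
      Af r * ‖z‖ ≤ ‖w‖ + 1 := by
    intro r hr z hz h1
    rw [qp_eval] at h1
    have h2 : (Af r : ℂ) * z ^ 3 = w * z ^ 2 - α * (Bf r : ℂ) := by linear_combination h1
    have h3 : Af r * ‖z‖ ^ 3 ≤ ‖w‖ * ‖z‖ ^ 2 + 1 := by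
      have h4 : ‖(Af r : ℂ) * z ^ 3‖ = Af r * ‖z‖ ^ 3 := by
        rw [norm_mul, norm_pow, Complex.norm_real, Real.norm_eq_abs,
          abs_of_pos (by have := le_Af hr; linarith)]
      rw [← h4, h2]
      refine (norm_sub_le _ _).trans ?_
      rw [norm_mul, norm_pow, norm_mul, hα, one_mul, Complex.norm_real, Real.norm_eq_abs,
        abs_of_pos (Bf_pos hr)]
      have := Bf_le_one hr
      linarith
    have h5 : 0 < ‖z‖ ^ 2 := by positivity
    have h6 : 1 ≤ ‖z‖ ^ 2 := by nlinarith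
    have h7 : Af r * ‖z‖ * ‖z‖ ^ 2 ≤ (‖w‖ + 1) * ‖z‖ ^ 2 := by
      calc Af r * ‖z‖ * ‖z‖ ^ 2 = Af r * ‖z‖ ^ 3 := by ring
        _ ≤ ‖w‖ * ‖z‖ ^ 2 + 1 := h3
        _ ≤ (‖w‖ + 1) * ‖z‖ ^ 2 := by nlinarith
    exact le_of_mul_le_mul_right h7 h5
  have hRb : ∀ r ∈ R, r ≤ ‖w‖ := by
    rintro r ⟨hr, z, hz, h1⟩
    have h2 := hbd r hr z hz h1
    have h3 := le_Af hr
    nlinarith
  have hbdd : BddAbove R := ⟨‖w‖, hRb⟩
  set s := sSup R with hs
  have hs0 : 0 ≤ s := le_csSup hbdd h0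
  -- s is in R by compactness
  have hcont : Continuous fun q : ℝ × ℂ => (qp w α q.1).eval q.2 := by
    have h1 : (fun q : ℝ × ℂ => (qp w α q.1).eval q.2)
        = fun q : ℝ × ℂ => (Af q.1 : ℂ) * q.2 ^ 3 - w * q.2 ^ 2 + α * (Bf q.1 : ℂ) := by
      funext q; exact qp_eval w α q.1 q.2
    rw [h1]
    have h2 : Continuous fun q : ℝ × ℂ => ((Af q.1 : ℝ) : ℂ) :=
      Complex.continuous_ofReal.comp (Af_cont.comp continuous_fst)
    have h3 : Continuous fun q : ℝ × ℂ => ((Bf q.1 : ℝ) : ℂ) :=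
      Complex.continuous_ofReal.comp (Bf_cont.comp continuous_fst)
    fun_prop
  have hsR : s ∈ R := by
    obtain ⟨u, -, hu2, hu3⟩ := exists_seq_tendsto_sSup ⟨0, h0⟩ hbdd
    choose hu0 zz hz1 hz2 using hu3
    have hzb : ∀ k, zz k ∈ closedBall (0 : ℂ) (‖w‖ + 1) := by
      intro k
      rw [mem_closedBall, dist_zero_right]
      have h1 := hbd (u k) (hu0 k) (zz k) (hz1 k) (hz2 k)
      have h2 := le_Af (hu0 k)
      have h3 := hu0 k
      have h4 := norm_nonneg (zz k)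
      nlinarith
    obtain ⟨z, _, φ, hφ, hlim⟩ := (isCompact_closedBall (0 : ℂ) (‖w‖ + 1)).tendsto_subseq hzb
    refine ⟨hs0, z, ?_, ?_⟩
    · exact le_of_tendsto_of_tendsto' tendsto_const_nhds hlim.norm fun k => hz1 (φ k)
    · have h1 := (hcont.tendsto (s, z)).comp ((hu2.comp hφ.tendsto_atTop).prodMk_nhds hlim)
      have h2 : ((fun q : ℝ × ℂ => (qp w α q.1).eval q.2) ∘ fun k => ((u ∘ φ) k, (zz ∘ φ) k))
          = fun _ => 0 := by
        funext k
        exact hz2 (φ k)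
      rw [h2] at h1
      exact (tendsto_nhds_unique h1 tendsto_const_nhds).symm ▸ rfl
  obtain ⟨-, z, hz1, hz2⟩ := hsR
  rcases hz1.eq_or_lt with hz | hz
  · exact ⟨s, hs0, z, hz.symm, hz2⟩
  · exfalso
    -- for r > s all roots are inside
    have hin : ∀ r, s < r → (‖z‖ - 1) ^ 3 ≤ ‖(qp w α r).eval z‖ := by
      intro r hr
      have hr0 : 0 ≤ r := by linarith
      have h1 : ∀ x, (qp w α r).eval x = 0 → ‖x‖ < 1 := by
        intro x hx
        by_contra h2
        push Not at h2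
        have h3 : r ∈ R := ⟨hr0, x, h2, hx⟩
        have := le_csSup hbdd h3
        linarith
      have hne : qp w α r ≠ 0 := by
        intro h2
        have := qp_deg w α hr0
        rw [h2, natDegree_zero] at this
        omega
      have h2 := big_of_roots hne h1 hz
      rw [qp_deg w α hr0, qp_lead w α hr0, Complex.norm_real, Real.norm_eq_abs,
        abs_of_pos (by have := le_Af hr0; linarith)] at h2
      have h3 := le_Af hr0
      have h4 : 0 ≤ (‖z‖ - 1) ^ 3 := pow_nonneg (by linarith) _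
      nlinarith
    have hlim : Tendsto (fun r => ‖(qp w α r).eval z‖) (𝓝[>] s) (𝓝 ‖(qp w α s).eval z‖) := by
      have h1 : Continuous fun r : ℝ => ‖(qp w α r).eval z‖ :=
        (hcont.comp (continuous_id.prodMk continuous_const)).norm
      exact (h1.tendsto s).mono_left nhdsWithin_le_nhds
    have h5 : (‖z‖ - 1) ^ 3 ≤ ‖(qp w α s).eval z‖ := by
      apply ge_of_tendsto hlim
      filter_upwards [self_mem_nhdsWithin] with r hr using hin r hr
    rw [hz2, norm_zero] at h5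
    have h6 : 0 < (‖z‖ - 1) ^ 3 := pow_pos (by linarith) _
    linarith

/-! ### the self-inversive cubic -/

/-- the self-inversive cubic -/
noncomputable def pw (w α z : ℂ) : ℂ := 1 + w * z + α * conj w * z ^ 2 + α * z ^ 3

lemma comp_three {S : ℂ → ℂ} (hS : S 0 = 1) (α z : ℂ) : comp 3 S α z = pw (co S 1) α z := by
  unfold comp pw
  have h0 : wt 3 0 = 1 := wt_lt (by norm_num)
  have h1 : wt 3 1 = 1 := wt_lt (by norm_num)
  have h2 : wt 3 2 = 0 := wt_gt (by norm_num)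
  have h3 : wt 3 3 = 0 := wt_gt (by norm_num)
  rw [Finset.sum_range_succ, Finset.sum_range_succ, Finset.sum_range_succ, Finset.sum_range_succ,
    Finset.sum_range_zero, h0, h1, h2, h3, co_zero, hS, map_one]
  norm_num
  ring

lemma factor_lt {z β : ℂ} (hz0 : z ≠ 0) (hz : ‖z‖ < 1) (hβ : 1 < ‖β‖) :
    ‖z‖ * ‖(conj z)⁻¹ - β‖ < ‖z - β‖ := by
  have hc : conj z ≠ 0 := by simpa using hz0
  have h1 : ‖z‖ * ‖(conj z)⁻¹ - β‖ = ‖1 - conj z * β‖ := by
    rw [← RCLike.norm_conj z, ← norm_mul]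
    congr 1
    field_simp
  rw [h1]
  have h2 : ‖1 - conj z * β‖ ^ 2 < ‖z - β‖ ^ 2 := by
    rw [← Complex.normSq_eq_norm_sq, ← Complex.normSq_eq_norm_sq]
    have e1 := Complex.normSq_eq_norm_sq z
    have e2 := Complex.normSq_eq_norm_sq β
    rw [Complex.normSq_apply] at e1 e2
    have hz2 : ‖z‖ ^ 2 < 1 := by
      have := norm_nonneg z
      nlinarith
    have hb2 : 1 < ‖β‖ ^ 2 := by nlinarith
    have h3 : 0 < (1 - ‖z‖ ^ 2) * (‖β‖ ^ 2 - 1) := mul_pos (by linarith) (by linarith)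
    rw [← e1, ← e2] at h3
    simp only [Complex.normSq_apply, Complex.sub_re, Complex.sub_im, Complex.one_re, Complex.one_im,
      Complex.mul_re, Complex.mul_im, Complex.conj_re, Complex.conj_im]
    nlinarith
  exact (pow_lt_pow_iff_left₀ (norm_nonneg _) (norm_nonneg _) two_ne_zero).1 h2

lemma prod_lt {z : ℂ} (hz0 : z ≠ 0) (hz : ‖z‖ < 1) (s : Multiset ℂ) (hs : ∀ β ∈ s, 1 < ‖β‖)
    (hs0 : s ≠ 0) :
    ‖z‖ ^ (Multiset.card s) * ‖(s.map fun β => (conj z)⁻¹ - β).prod‖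
      < ‖(s.map fun β => z - β).prod‖ := by
  obtain ⟨a, ha⟩ := Multiset.exists_mem_of_ne_zero hs0
  obtain ⟨t, rfl⟩ := Multiset.exists_cons_of_mem ha
  rw [Multiset.map_cons, Multiset.prod_cons, Multiset.map_cons, Multiset.prod_cons,
    Multiset.card_cons, norm_mul, norm_mul, pow_succ]
  have h1 := prod_le hz0 hz t fun β hβ => (hs β (Multiset.mem_cons_of_mem hβ)).le
  have h2 := factor_lt hz0 hz (hs a (Multiset.mem_cons_self a t))
  have h3 : 0 < ‖(t.map fun β => z - β).prod‖ := by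
    rw [norm_pos_iff]
    apply Multiset.prod_ne_zero
    rw [Multiset.mem_map]
    rintro ⟨β, hβ, h4⟩
    have h5 : z = β := by linear_combination h4
    have h6 := hs β (Multiset.mem_cons_of_mem hβ)
    rw [← h5] at h6
    linarith
  calc ‖z‖ ^ (Multiset.card t) * ‖z‖
        * (‖(conj z)⁻¹ - a‖ * ‖(t.map fun β => (conj z)⁻¹ - β).prod‖)
      = (‖z‖ * ‖(conj z)⁻¹ - a‖)
        * (‖z‖ ^ (Multiset.card t) * ‖(t.map fun β => (conj z)⁻¹ - β).prod‖) := by ring
    _ ≤ (‖z‖ * ‖(conj z)⁻¹ - a‖) * ‖(t.map fun β => z - β).prod‖ :=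
        mul_le_mul_of_nonneg_left h1 (by positivity)
    _ < ‖z - a‖ * ‖(t.map fun β => z - β).prod‖ := mul_lt_mul_of_pos_right h2 h3

lemma star_lt {B : ℂ[X]} (hB : ∀ z : ℂ, B.eval z = 0 → 1 < ‖z‖) (hd : 0 < B.natDegree) {z : ℂ}
    (hz0 : z ≠ 0) (hz : ‖z‖ < 1) : ‖z‖ ^ B.natDegree * ‖B.eval (conj z)⁻¹‖ < ‖B.eval z‖ := by
  have hB0 : B ≠ 0 := by
    intro h
    rw [h, natDegree_zero] at hd
    exact lt_irrefl _ hd
  have hcard : Multiset.card B.roots = B.natDegree :=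
    (IsAlgClosed.splits B).natDegree_eq_card_roots.symm
  have heval : ∀ w : ℂ, B.eval w = B.leadingCoeff * (B.roots.map fun β => w - β).prod := by
    intro w
    have h1 := (IsAlgClosed.splits B).eq_prod_roots
    conv_lhs => rw [h1]
    rw [eval_mul, eval_C, eval_multiset_prod, Multiset.map_map]
    congr 2
    apply Multiset.map_congr rfl
    intro β _
    simp
  rw [heval, heval z, norm_mul, norm_mul, ← hcard]
  have hr0 : B.roots ≠ 0 := by
    intro h
    rw [h, Multiset.card_zero] at hcard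
    omega
  have h1 := prod_lt hz0 hz B.roots (fun β hβ => hB β ((mem_roots hB0).1 hβ)) hr0
  have h2 : 0 < ‖B.leadingCoeff‖ := norm_pos_iff.2 (leadingCoeff_ne_zero.2 hB0)
  calc ‖z‖ ^ (Multiset.card B.roots)
        * (‖B.leadingCoeff‖ * ‖(B.roots.map fun β => (conj z)⁻¹ - β).prod‖)
      = ‖B.leadingCoeff‖ * (‖z‖ ^ (Multiset.card B.roots)
        * ‖(B.roots.map fun β => (conj z)⁻¹ - β).prod‖) := by ring
    _ < _ := mul_lt_mul_of_pos_left h1 h2

/-- the cubic `2 + w z - α z³` -/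
noncomputable def Qw (w α : ℂ) : ℂ[X] := C 2 + C w * X - C α * X ^ 3

lemma Qw_eval (w α z : ℂ) : (Qw w α).eval z = 2 + w * z - α * z ^ 3 := by
  unfold Qw
  simp only [eval_add, eval_sub, eval_mul, eval_C, eval_pow, eval_X]

lemma Qw_deg (w : ℂ) {α : ℂ} (hα : α ≠ 0) : (Qw w α).natDegree = 3 := by
  unfold Qw
  compute_degree!

lemma pw_eq (w : ℂ) {α z : ℂ} (hα : ‖α‖ = 1) (hz : z ≠ 0) :
    pw w α z = (Qw w α).eval z + α * (z ^ 3 * conj ((Qw w α).eval (conj z)⁻¹)) := by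
  rw [Qw_eval, Qw_eval]
  have h5 := conj_mul_self_one hα
  simp only [map_add, map_sub, map_mul, map_pow, map_inv₀, Complex.conj_conj, map_ofNat]
  have h2 : z * z⁻¹ = 1 := mul_inv_cancel₀ hz
  unfold pw
  have e1 : z ^ 3 * z⁻¹ = z ^ 2 := by linear_combination (z ^ 2) * h2
  have e2 : z ^ 3 * z⁻¹ ^ 3 = 1 := by rw [← mul_pow, h2, one_pow]
  linear_combination (-(α * conj w)) * e1 + (α * conj α) * e2 + h5

lemma pw_zeros {w α : ℂ} (hα : ‖α‖ = 1) (h : ∀ z : ℂ, (Qw w α).eval z = 0 → 1 < ‖z‖) {z : ℂ}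
    (hz : pw w α z = 0) : ‖z‖ = 1 := by
  have hα0 : α ≠ 0 := by
    intro h1
    rw [h1, norm_zero] at hα
    exact zero_ne_one hα
  have hin : ∀ x : ℂ, x ≠ 0 → ‖x‖ < 1 → pw w α x ≠ 0 := by
    intro x hx0 hx h1
    rw [pw_eq w hα hx0] at h1
    have h2 := star_lt h (by rw [Qw_deg w hα0]; norm_num) hx0 hx
    rw [Qw_deg w hα0] at h2
    have h4 : (Qw w α).eval x = -(α * (x ^ 3 * conj ((Qw w α).eval (conj x)⁻¹))) := by
      linear_combination h1
    rw [h4, norm_neg, norm_mul, hα, one_mul, norm_mul, norm_pow, RCLike.norm_conj] at h2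
    exact lt_irrefl _ h2
  by_contra hne
  rcases lt_or_gt_of_ne hne with h1 | h1
  · by_cases hz0 : z = 0
    · rw [hz0] at hz
      simp [pw] at hz
    · exact hin z hz0 h1 hz
  · have hz0 : z ≠ 0 := by
      intro h
      rw [h, norm_zero] at h1
      linarith
    have hc : conj z ≠ 0 := by simpa using hz0
    have hw1 : ‖(conj z)⁻¹‖ < 1 := by
      rw [norm_inv, RCLike.norm_conj]
      exact inv_lt_one_of_one_lt₀ h1
    apply hin _ (inv_ne_zero hc) hw1
    have e3 := congrArg conj hz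
    unfold pw at e3 ⊢
    simp only [map_add, map_mul, map_pow, Complex.conj_conj, map_zero, map_one] at e3
    have h5 := conj_mul_self_one hα
    have h7 : conj z * (conj z)⁻¹ = 1 := mul_inv_cancel₀ hc
    have h8 : conj z ^ 3 * (conj z)⁻¹ ^ 3 = 1 := by rw [← mul_pow, h7, one_pow]
    have h9 : conj z ^ 2 * (conj z)⁻¹ ^ 3 = (conj z)⁻¹ := by
      linear_combination (conj z * (conj z)⁻¹ ^ 2 + (conj z)⁻¹) * h7
    have h10 : conj z * (conj z)⁻¹ ^ 3 = (conj z)⁻¹ ^ 2 := by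
      linear_combination ((conj z)⁻¹ ^ 2) * h7
    linear_combination (α * (conj z)⁻¹ ^ 3) * e3 - (α * conj w) * h10 - h8 - w * h9
      - (w * conj z ^ 2 * (conj z)⁻¹ ^ 3 + conj z ^ 3 * (conj z)⁻¹ ^ 3) * h5

/-- **Covering.** Every half-jet is self-inversive with zeros on the circle, or in the family. -/
theorem surj (w α : ℂ) (hα : ‖α‖ = 1) :
    (∀ z : ℂ, pw w α z = 0 → ‖z‖ = 1) ∨
    ∃ r : ℝ, 0 < r ∧ ∃ μ : ℂ, ‖μ‖ = 1 ∧ w = Af r * μ + α * conj μ ^ 2 * Bf r := by
  by_cases h : ∃ z : ℂ, 1 ≤ ‖z‖ ∧ (qp w α 0).eval z = 0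
  · obtain ⟨r, hr, μ, hμ, h1⟩ := exists_circle w α hα h
    have h2 := conj_mul_self_one hμ
    rw [qp_eval] at h1
    have h3 : w = Af r * μ + α * conj μ ^ 2 * Bf r := by
      linear_combination (-(conj μ ^ 2)) * h1
        + ((Af r : ℂ) * μ * (conj μ * μ + 1) - w * (conj μ * μ + 1)) * h2
    rcases hr.eq_or_lt with hr0 | hr0
    · left
      rw [← hr0, Af_zero, Bf_zero] at h3
      push_cast at h3
      intro z hz
      have h4 : pw w α z = (1 + μ * z) ^ 2 * (1 + α * conj μ ^ 2 * z) := by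
        unfold pw
        rw [h3]
        simp only [map_add, map_mul, map_pow, Complex.conj_conj, map_one, map_ofNat]
        have h5 := conj_mul_self_one hα
        linear_combination (-(α * conj μ * z ^ 2 * 2) - α * (conj μ * μ + 1) * z ^ 3) * h2
          + (μ ^ 2 * z ^ 2) * h5
      rw [h4, mul_eq_zero, pow_eq_zero_iff two_ne_zero] at hz
      rcases hz with hz | hz
      · have h6 : μ * z = -1 := by linear_combination hz
        have h7 : ‖μ * z‖ = 1 := by rw [h6, norm_neg, norm_one]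
        rwa [norm_mul, hμ, one_mul] at h7
      · have h6 : α * conj μ ^ 2 * z = -1 := by linear_combination hz
        have h7 : ‖α * conj μ ^ 2 * z‖ = 1 := by rw [h6, norm_neg, norm_one]
        rwa [norm_mul, norm_mul, norm_pow, RCLike.norm_conj, hμ, hα, one_pow, one_mul, one_mul]
          at h7
    · right
      exact ⟨r, hr0, μ, hμ, h3⟩
  · left
    push Not at h
    intro z hz
    apply pw_zeros hα _ hz
    intro x hx
    rw [Qw_eval] at hx
    have hx0 : x ≠ 0 := by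
      intro h1
      rw [h1] at hx
      norm_num at hx
    by_contra h1
    push Not at h1
    have h2 : 1 ≤ ‖-x⁻¹‖ := by
      rw [norm_neg, norm_inv]
      exact (one_le_inv₀ (norm_pos_iff.2 hx0)).2 h1
    apply h _ h2
    rw [qp_eval, Af_zero, Bf_zero]
    push_cast
    have h3 : x * x⁻¹ = 1 := mul_inv_cancel₀ hx0
    have h4 : x ^ 3 * x⁻¹ ^ 3 = 1 := by rw [← mul_pow, h3, one_pow]
    have h5 : x * x⁻¹ ^ 3 = x⁻¹ ^ 2 := by linear_combination (x⁻¹ ^ 2) * h3
    linear_combination (-(x⁻¹ ^ 3)) * hx - w * h5 * (-1) - α * h4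

end Pool.Agent.H8.HS
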