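import Mathlib
import Pool.Agent.H8.HS.Surj

/-!
# Case `n = 3` (`MP_ff17e6_an`): the real inequality
-/

set_option autoImplicit false

open Set

namespace Pool.Agent.H8.HS

/-! ### strong convexity of `x log x` -/

lemma ulog1 {u : ℝ} (h0 : 0 < u) (h1 : u ≤ 1) : u - 1 + (u - 1) ^ 2 / 2 ≤ u * Real.log u := by
  have hmono : AntitoneOn (fun x : ℝ => x * Real.log x - (x - 1) - (x - 1) ^ 2 / 2) (Ioc 0 1) := by
    apply antitoneOn_of_deriv_nonpos (convex_Ioc 0 1)
    · intro x hx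
      have hx0 : x ≠ 0 := hx.1.ne'
      apply ContinuousAt.continuousWithinAt
      fun_prop (disch := assumption)
    · intro x hx
      rw [interior_Ioc] at hx
      have hx0 : x ≠ 0 := hx.1.ne'
      apply DifferentiableAt.differentiableWithinAt
      fun_prop (disch := assumption)
    · intro x hx
      rw [interior_Ioc] at hx
      have hx0 : x ≠ 0 := hx.1.ne'
      have h2 : HasDerivAt (fun x : ℝ => x * Real.log x - (x - 1) - (x - 1) ^ 2 / 2)
          (Real.log x + 1 - 1 - (2 * (x - 1)) / 2) x := by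
        have e1 : HasDerivAt (fun x : ℝ => x * Real.log x) (Real.log x + 1) x :=
          Real.hasDerivAt_mul_log hx0
        have e2 : HasDerivAt (fun x : ℝ => x - 1) 1 x := (hasDerivAt_id x).sub_const 1
        have e3 : HasDerivAt (fun x : ℝ => (x - 1) ^ 2 / 2) (2 * (x - 1) / 2) x := by
          have := (e2.pow 2).div_const 2
          simpa using this
        exact (e1.sub e2).sub e3
      rw [h2.deriv]
      have := Real.log_le_sub_one_of_pos hx.1
      linarith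
  have h3 := hmono ⟨h0, h1⟩ ⟨one_pos, le_refl 1⟩ h1
  simp only [Real.log_one, mul_zero, sub_self] at h3
  norm_num at h3
  linarith

lemma ulog2 {u : ℝ} (h1 : 1 ≤ u) : u - 1 + (u - 1) ^ 2 / (2 * u) ≤ u * Real.log u := by
  have hmono : MonotoneOn (fun x : ℝ => Real.log x + 2 * x⁻¹ - x⁻¹ ^ 2 / 2) (Ici 1) := by
    apply monotoneOn_of_deriv_nonneg (convex_Ici 1)
    · intro x hx
      have hx0 : x ≠ 0 := by have : (1 : ℝ) ≤ x := hx; positivity
      apply ContinuousAt.continuousWithinAt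
      fun_prop (disch := assumption)
    · intro x hx
      rw [interior_Ici] at hx
      have hx0 : x ≠ 0 := by have : (1 : ℝ) < x := hx; positivity
      apply DifferentiableAt.differentiableWithinAt
      fun_prop (disch := assumption)
    · intro x hx
      rw [interior_Ici] at hx
      have hx1 : (1 : ℝ) < x := hx
      have hx0 : x ≠ 0 := by positivity
      have e1 : HasDerivAt (fun x : ℝ => x⁻¹) (-(x ^ 2)⁻¹) x := hasDerivAt_inv hx0
      have h2 : HasDerivAt (fun x : ℝ => Real.log x + 2 * x⁻¹ - x⁻¹ ^ 2 / 2)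
          (x⁻¹ + 2 * (-(x ^ 2)⁻¹) - (2 * x⁻¹ * (-(x ^ 2)⁻¹)) / 2) x := by
        have e2 := e1.const_mul 2
        have e3 : HasDerivAt (fun x : ℝ => x⁻¹ ^ 2 / 2) (2 * x⁻¹ * (-(x ^ 2)⁻¹) / 2) x := by
          have := (e1.pow 2).div_const 2
          simpa using this
        exact ((Real.hasDerivAt_log hx0).add e2).sub e3
      rw [h2.deriv]
      have h3 : x⁻¹ + 2 * (-(x ^ 2)⁻¹) - (2 * x⁻¹ * (-(x ^ 2)⁻¹)) / 2 = x⁻¹ * (1 - x⁻¹) ^ 2 := by
        field_simp
        ring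
      rw [h3]
      positivity
  have h3 := hmono (show (1 : ℝ) ∈ Ici 1 from le_refl (1 : ℝ)) (show u ∈ Ici 1 from h1) h1
  simp only [Real.log_one, inv_one] at h3
  have hu : 0 < u := by linarith
  have h4 : (3 / 2 : ℝ) - 2 * u⁻¹ + u⁻¹ ^ 2 / 2 ≤ Real.log u := by linarith
  have h5 := mul_le_mul_of_nonneg_left h4 hu.le
  have h6 : u * ((3 / 2 : ℝ) - 2 * u⁻¹ + u⁻¹ ^ 2 / 2) = u - 1 + (u - 1) ^ 2 / (2 * u) := by
    field_simp
    ring
  rw [h6] at h5
  exact h5

/-- strong tangent inequality for `x log x` on `(0, m]` -/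
lemma tangent {x t m : ℝ} (hx : 0 < x) (ht : 0 < t) (hxm : x ≤ m) (htm : t ≤ m) :
    x * Real.log x + (1 + Real.log x) * (t - x) + (t - x) ^ 2 / (2 * m) ≤ t * Real.log t := by
  have hm : 0 < m := by linarith
  set u : ℝ := t / x with hu
  have hu0 : 0 < u := div_pos ht hx
  have htu : t = x * u := by rw [hu]; field_simp
  have hlog : Real.log t = Real.log x + Real.log u := by
    rw [htu, Real.log_mul hx.ne' hu0.ne']
  have key : x * (u - 1 + (t - x) ^ 2 / (2 * m) / x) ≤ x * (u * Real.log u) := by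
    apply mul_le_mul_of_nonneg_left _ hx.le
    rcases le_total u 1 with h1 | h1
    · refine le_trans ?_ (ulog1 hu0 h1)
      have h2 : (t - x) ^ 2 / (2 * m) / x ≤ (u - 1) ^ 2 / 2 := by
        have h3 : (t - x) ^ 2 = x ^ 2 * (u - 1) ^ 2 := by rw [htu]; ring
        rw [h3, div_div, div_le_iff₀ (by positivity)]
        have h4 : 0 ≤ (u - 1) ^ 2 := sq_nonneg _
        have h5 : x ^ 2 ≤ m * x := by nlinarith
        nlinarith [mul_le_mul_of_nonneg_right h5 h4]
      linarith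
    · refine le_trans ?_ (ulog2 h1)
      have h2 : (t - x) ^ 2 / (2 * m) / x ≤ (u - 1) ^ 2 / (2 * u) := by
        have h3 : (t - x) ^ 2 = x ^ 2 * (u - 1) ^ 2 := by rw [htu]; ring
        rw [h3, div_div, div_le_div_iff₀ (by positivity) (by positivity)]
        have h4 : 0 ≤ (u - 1) ^ 2 := sq_nonneg _
        have h5 : x * u ≤ m := by rw [← htu]; exact htm
        have h6 : x ^ 2 * u ≤ m * x := by nlinarith
        nlinarith [mul_le_mul_of_nonneg_right h6 h4]
      linarith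
  have h7 : x * (u - 1 + (t - x) ^ 2 / (2 * m) / x) = (t - x) + (t - x) ^ 2 / (2 * m) := by
    rw [htu]
    field_simp
  rw [h7] at key
  have h8 : t * Real.log t = t * Real.log x + x * (u * Real.log u) := by
    rw [hlog, ← mul_assoc x u, ← htu]
    ring
  rw [h8]
  linarith

/-! ### the case `c = -1` -/

lemma tanh_le_self {x : ℝ} (hx : 0 ≤ x) : Real.sinh x ≤ x * Real.cosh x := by
  have hmono : MonotoneOn (fun x : ℝ => x * Real.cosh x - Real.sinh x) (Ici 0) := by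
    apply monotoneOn_of_deriv_nonneg (convex_Ici 0)
    · fun_prop
    · fun_prop
    · intro x hx
      rw [interior_Ici] at hx
      have h2 : HasDerivAt (fun x : ℝ => x * Real.cosh x - Real.sinh x)
          (1 * Real.cosh x + x * Real.sinh x - Real.cosh x) x :=
        ((hasDerivAt_id x).mul (Real.hasDerivAt_cosh x)).sub (Real.hasDerivAt_sinh x)
      rw [h2.deriv]
      have h3 : 0 < Real.sinh x := Real.sinh_pos_iff.2 hx
      have h4 : (0 : ℝ) < x := hx
      nlinarith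
  have h3 := hmono (show (0 : ℝ) ∈ Ici 0 from le_refl (0 : ℝ)) (show x ∈ Ici 0 from hx) hx
  simp at h3
  linarith

lemma log_cosh_le {t : ℝ} (ht : 0 ≤ t) :
    Real.log (Real.cosh (2 * t)) ≤ 2 * t * (Real.sinh t / Real.cosh t) := by
  have hc : ∀ x : ℝ, Real.cosh x ≠ 0 := fun x => (Real.cosh_pos x).ne'
  have hmono : MonotoneOn (fun x : ℝ => 2 * x * (Real.sinh x / Real.cosh x)
      - Real.log (Real.cosh (2 * x))) (Ici 0) := by
    apply monotoneOn_of_deriv_nonneg (convex_Ici 0)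
    · apply Continuous.continuousOn
      have h1 : Continuous fun x : ℝ => Real.sinh x / Real.cosh x :=
        Real.continuous_sinh.div Real.continuous_cosh hc
      have h2 : Continuous fun x : ℝ => Real.log (Real.cosh (2 * x)) :=
        (Real.continuous_cosh.comp (continuous_const.mul continuous_id)).log fun x => hc _
      exact ((continuous_const.mul continuous_id).mul h1).sub h2
    · intro x _
      have h1 : DifferentiableAt ℝ (fun x : ℝ => Real.sinh x / Real.cosh x) x :=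
        Real.differentiable_sinh.differentiableAt.div Real.differentiable_cosh.differentiableAt (hc x)
      have h2 : DifferentiableAt ℝ (fun x : ℝ => Real.log (Real.cosh (2 * x))) x := by
        have h0 : DifferentiableAt ℝ (fun x : ℝ => Real.cosh (2 * x)) x := by fun_prop
        exact h0.log (hc _)
      have h3 : DifferentiableAt ℝ (fun x : ℝ => 2 * x) x := by fun_prop
      exact ((h3.mul h1).sub h2).differentiableWithinAt
    · intro x hx
      rw [interior_Ici] at hx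
      have hx0 : (0 : ℝ) < x := hx
      have h1 : HasDerivAt (fun x : ℝ => Real.sinh x / Real.cosh x)
          ((Real.cosh x * Real.cosh x - Real.sinh x * Real.sinh x) / Real.cosh x ^ 2) x :=
        (Real.hasDerivAt_sinh x).div (Real.hasDerivAt_cosh x) (hc x)
      have h2 : HasDerivAt (fun x : ℝ => 2 * x) 2 x := by
        simpa using (hasDerivAt_id x).const_mul 2
      have h3 : HasDerivAt (fun x : ℝ => Real.log (Real.cosh (2 * x)))
          (Real.sinh (2 * x) * 2 / Real.cosh (2 * x)) x := (h2.cosh).log (hc _)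
      have h4 : HasDerivAt (fun x : ℝ => 2 * x * (Real.sinh x / Real.cosh x)
          - Real.log (Real.cosh (2 * x)))
          (2 * (Real.sinh x / Real.cosh x) + 2 * x * ((Real.cosh x * Real.cosh x
            - Real.sinh x * Real.sinh x) / Real.cosh x ^ 2)
            - Real.sinh (2 * x) * 2 / Real.cosh (2 * x)) x := (h2.mul h1).sub h3
      rw [h4.deriv]
      have hC : 0 < Real.cosh x := Real.cosh_pos x
      have hC2 : 0 < Real.cosh (2 * x) := Real.cosh_pos _
      have hid : Real.cosh x ^ 2 - Real.sinh x ^ 2 = 1 := Real.cosh_sq_sub_sinh_sq x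
      have h5 : Real.cosh (2 * x) = Real.cosh x ^ 2 + Real.sinh x ^ 2 := Real.cosh_two_mul x
      have h6 : Real.sinh (2 * x) = 2 * Real.sinh x * Real.cosh x := Real.sinh_two_mul x
      have h7 := tanh_le_self (x := 2 * x) (by linarith)
      have h8 : 2 * (Real.sinh x / Real.cosh x) + 2 * x * ((Real.cosh x * Real.cosh x
            - Real.sinh x * Real.sinh x) / Real.cosh x ^ 2)
            - Real.sinh (2 * x) * 2 / Real.cosh (2 * x)
          = (2 * x * Real.cosh (2 * x) - Real.sinh (2 * x))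
            / (Real.cosh x ^ 2 * Real.cosh (2 * x)) := by
        have h9 : Real.cosh x * Real.cosh x - Real.sinh x * Real.sinh x = 1 := by
          linear_combination hid
        rw [h9]
        field_simp
        rw [h6, h5]
        linear_combination (-2 * Real.sinh x * Real.cosh x) * hid
      rw [h8]
      apply div_nonneg _ (by positivity)
      linarith
  have h3 := hmono (show (0 : ℝ) ∈ Ici 0 from le_refl (0 : ℝ)) (show t ∈ Ici 0 from ht) ht
  simp at h3
  linarith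

/-- the mean of the unnormalised kernel -/
noncomputable def Mm (b h c : ℝ) : ℝ := 4 * (h + b ^ 2 * (h + c) + b * (1 + c * h))

/-- the numerator of `F₁ - 1 + log M` -/
noncomputable def Qm (b h c : ℝ) : ℝ :=
  2 * (2 * h + c + b * (5 + 7 * h * c + 2 * h ^ 2) + b ^ 2 * (10 * h + 6 * c + 4 * h ^ 2 * c)
    + 2 * b ^ 3 * (h + c) ^ 2)
  - 4 / 3 * ((1 + b * h) ^ 3 * c + 3 * (1 + b * h) ^ 2 * b + 3 * (1 + b * h) * b ^ 2 * c
    + b ^ 3 * (2 * c ^ 2 - 1))

lemma Qm_neg (b h : ℝ) : Qm b h (-1) = (1 + b * (h - 1)) * Mm b h (-1) - 2 / 3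
    - 2 * (b * (h - 1)) + 4 / 3 * (b * (h - 1)) ^ 3 := by
  unfold Qm Mm; ring

lemma Qm_pos (b h : ℝ) : Qm b h 1 = (1 + b * (h + 1)) * Mm b h 1 + 2 / 3
    + 2 * (b * (h + 1)) - 4 / 3 * (b * (h + 1)) ^ 3 := by
  unfold Qm Mm; ring

lemma Qm_chord (b h c : ℝ) : Qm b h c = (1 + c) / 2 * Qm b h 1 + (1 - c) / 2 * Qm b h (-1)
    - 4 / 3 * b ^ 3 * (1 - c ^ 2) := by
  unfold Qm; ring

lemma log_cosh_le' {r : ℝ} (hr : 0 < r) : Real.log (Real.cosh r) ≤ Bf r * (Real.cosh r - 1) := by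
  have h1 := log_cosh_le (t := r / 2) (by linarith)
  rw [show 2 * (r / 2) = r by ring] at h1
  refine h1.trans (le_of_eq ?_)
  rw [Bf_pos' hr]
  have h2 : Real.sinh r = 2 * Real.sinh (r / 2) * Real.cosh (r / 2) := by
    rw [← Real.sinh_two_mul]; congr 1; ring
  have h3 : Real.cosh r = Real.cosh (r / 2) ^ 2 + Real.sinh (r / 2) ^ 2 := by
    rw [← Real.cosh_two_mul]; congr 1; ring
  have h4 := Real.cosh_sq_sub_sinh_sq (r / 2)
  have h5 : 0 < Real.sinh (r / 2) := Real.sinh_pos_iff.2 (by linarith)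
  have h6 : 0 < Real.cosh (r / 2) := Real.cosh_pos _
  have h7 : Real.cosh r - 1 = 2 * Real.sinh (r / 2) ^ 2 := by linarith
  rw [h7, h2]
  field_simp

lemma ineq_neg {r : ℝ} (hr : 0 < r) :
    Mm (Bf r) (Real.cosh r) (-1) * Real.log (Mm (Bf r) (Real.cosh r) (-1) / 2)
      < Qm (Bf r) (Real.cosh r) (-1) := by
  have hb0 := Bf_pos hr.le
  have hb1 := Bf_le_one hr.le
  have hh := Real.one_le_cosh r
  have hlog := log_cosh_le' hr
  rw [Qm_neg]
  set b := Bf r with hb
  set h := Real.cosh r with hhh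
  set y := b * (h - 1) with hy
  set M := Mm b h (-1) with hM
  have hy0 : 0 ≤ y := mul_nonneg hb0.le (by linarith)
  have hMe : M = 4 * (h - (1 - b) * y) := by rw [hM, hy]; unfold Mm; ring
  have hM1 : 4 * (1 + y) ≤ M := by
    rw [hMe]
    have : 0 ≤ (h - 1) * (1 - b) ^ 2 := mul_nonneg (by linarith) (sq_nonneg _)
    have h2 : 4 * (h - (1 - b) * y) - 4 * (1 + y) = 4 * ((h - 1) * (1 - b) ^ 2) := by
      rw [hy]; ring
    linarith
  have hM2 : M ≤ 4 * h := by
    rw [hMe]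
    have : 0 ≤ (1 - b) * y := mul_nonneg (by linarith) hy0
    linarith
  have hMpos : 0 < M := by linarith
  have h1 : Real.log (M / 2) ≤ Real.log 2 + y := by
    have h2 : Real.log (M / 2) ≤ Real.log (2 * h) := Real.log_le_log (by linarith) (by linarith)
    rw [Real.log_mul two_ne_zero (by linarith)] at h2
    linarith
  have h2 := mul_le_mul_of_nonneg_left h1 hMpos.le
  have h3 := Real.log_two_lt_d9
  have h4 : M * (0.3 : ℝ) ≤ M * (1 - Real.log 2) :=
    mul_le_mul_of_nonneg_left (by linarith) hMpos.le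
  have h5 : 0 ≤ (y + 9 / 10) * (y - 9 / 20) ^ 2 := mul_nonneg (by linarith) (sq_nonneg _)
  linarith

/-! ### the case `c = 1` -/

lemma poly_pos {r : ℝ} (hr : 0 ≤ r) :
    0 < 2 / 3 + 3 * r + 5 / 2 * r ^ 2 + 23 / 9 * r ^ 3 + 29 / 18 * r ^ 4 + 439 / 720 * r ^ 5
      + 2083 / 12960 * r ^ 6 + 11 / 576 * r ^ 7 - 17 / 4320 * r ^ 8 - 7 / 11520 * r ^ 9
      + 17 / 34560 * r ^ 10 + 23 / 51840 * r ^ 11 + 1 / 6480 * r ^ 12 + 1 / 34560 * r ^ 13
      + 1 / 414720 * r ^ 14 := by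
  have h1 : 0 < 660 - 136 * r - 21 * r ^ 2 + 17 * r ^ 3 := by
    nlinarith [mul_nonneg hr (sq_nonneg (r - 2)), sq_nonneg (r - 2)]
  have h2 : 0 ≤ r ^ 7 * (660 - 136 * r - 21 * r ^ 2 + 17 * r ^ 3) := mul_nonneg (by positivity) h1.le
  have h3 : 2 / 3 + 3 * r + 5 / 2 * r ^ 2 + 23 / 9 * r ^ 3 + 29 / 18 * r ^ 4 + 439 / 720 * r ^ 5
      + 2083 / 12960 * r ^ 6 + 11 / 576 * r ^ 7 - 17 / 4320 * r ^ 8 - 7 / 11520 * r ^ 9
      + 17 / 34560 * r ^ 10 + 23 / 51840 * r ^ 11 + 1 / 6480 * r ^ 12 + 1 / 34560 * r ^ 13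
      + 1 / 414720 * r ^ 14
      = (2 / 3 + 3 * r + 5 / 2 * r ^ 2 + 23 / 9 * r ^ 3 + 29 / 18 * r ^ 4 + 439 / 720 * r ^ 5
      + 2083 / 12960 * r ^ 6 + 23 / 51840 * r ^ 11 + 1 / 6480 * r ^ 12 + 1 / 34560 * r ^ 13
      + 1 / 414720 * r ^ 14) + r ^ 7 * (660 - 136 * r - 21 * r ^ 2 + 17 * r ^ 3) / 34560 := by
    ring
  rw [h3]
  have h4 : 0 < 2 / 3 + 3 * r + 5 / 2 * r ^ 2 + 23 / 9 * r ^ 3 + 29 / 18 * r ^ 4 + 439 / 720 * r ^ 5
      + 2083 / 12960 * r ^ 6 + 23 / 51840 * r ^ 11 + 1 / 6480 * r ^ 12 + 1 / 34560 * r ^ 13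
      + 1 / 414720 * r ^ 14 := by positivity
  linarith [div_nonneg h2 (by norm_num : (0 : ℝ) ≤ 34560)]

/-- the polynomial inequality behind the case `c = 1` -/
lemma poly_ineq {r q : ℝ} (hr : 0 < r) (hq0 : 0 < q)
    (hq : q * (1 + r / 2 + r ^ 2 / 6 + r ^ 3 / 24) ≤ 2) :
    4 * r ^ 2 * q + r * q ^ 2 * (8 - q) / 3 < 10 * r + 2 / 3 - 2 / 3 * r ^ 3 + r ^ 5 / 30 := by
  set D := 1 + r / 2 + r ^ 2 / 6 + r ^ 3 / 24 with hD
  have hD1 : 1 ≤ D := by
    have : 0 ≤ r / 2 + r ^ 2 / 6 + r ^ 3 / 24 := by positivity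
    linarith
  have hD0 : 0 < D := by linarith
  set V := 2 / D with hV
  have hV0 : 0 < V := div_pos two_pos hD0
  have hV2 : V ≤ 2 := by rw [hV, div_le_iff₀ hD0]; linarith
  have hqV : q ≤ V := by rw [hV, le_div_iff₀ hD0]; exact hq
  have h1 : 4 * r ^ 2 * q + r * q ^ 2 * (8 - q) / 3 ≤ 4 * r ^ 2 * V + r * V ^ 2 * (8 - V) / 3 := by
    have h2 : 4 * r ^ 2 * V + r * V ^ 2 * (8 - V) / 3 - (4 * r ^ 2 * q + r * q ^ 2 * (8 - q) / 3)
        = (V - q) * (4 * r ^ 2 + r * (8 * (V + q) - (V ^ 2 + V * q + q ^ 2)) / 3) := by ring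
    have h3 : 0 ≤ 8 * (V + q) - (V ^ 2 + V * q + q ^ 2) := by nlinarith
    have h4 : 0 ≤ (V - q) * (4 * r ^ 2 + r * (8 * (V + q) - (V ^ 2 + V * q + q ^ 2)) / 3) :=
      mul_nonneg (by linarith) (by positivity)
    linarith
  refine lt_of_le_of_lt h1 ?_
  have h5 := poly_pos hr.le
  have hVD : V * D = 2 := by rw [hV]; field_simp
  have h6 : (10 * r + 2 / 3 - 2 / 3 * r ^ 3 + r ^ 5 / 30
      - (4 * r ^ 2 * V + r * V ^ 2 * (8 - V) / 3)) * D ^ 3
      = 2 / 3 + 3 * r + 5 / 2 * r ^ 2 + 23 / 9 * r ^ 3 + 29 / 18 * r ^ 4 + 439 / 720 * r ^ 5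
      + 2083 / 12960 * r ^ 6 + 11 / 576 * r ^ 7 - 17 / 4320 * r ^ 8 - 7 / 11520 * r ^ 9
      + 17 / 34560 * r ^ 10 + 23 / 51840 * r ^ 11 + 1 / 6480 * r ^ 12 + 1 / 34560 * r ^ 13
      + 1 / 414720 * r ^ 14 := by
    have e1 : (10 * r + 2 / 3 - 2 / 3 * r ^ 3 + r ^ 5 / 30
      - (4 * r ^ 2 * V + r * V ^ 2 * (8 - V) / 3)) * D ^ 3
        = (10 * r + 2 / 3 - 2 / 3 * r ^ 3 + r ^ 5 / 30) * D ^ 3 - 4 * r ^ 2 * (V * D) * D ^ 2
          - 8 / 3 * r * (V * D) ^ 2 * D + r * (V * D) ^ 3 / 3 := by ring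
    rw [e1, hVD, hD]
    ring
  have h7 : 0 < (10 * r + 2 / 3 - 2 / 3 * r ^ 3 + r ^ 5 / 30
      - (4 * r ^ 2 * V + r * V ^ 2 * (8 - V) / 3)) * D ^ 3 := by rw [h6]; exact h5
  have h8 := (mul_pos_iff_of_pos_right (pow_pos hD0 3)).1 h7
  linarith

lemma sinh_lower {r : ℝ} (hr : 0 ≤ r) : r + r ^ 3 / 6 + r ^ 5 / 120 ≤ Real.sinh r := by
  have h1 := Real.hasSum_sinh r
  have h2 := sum_le_hasSum (Finset.range 3) (fun i _ => by positivity) h1
  rw [Finset.sum_range_succ, Finset.sum_range_succ, Finset.sum_range_succ,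
    Finset.sum_range_zero] at h2
  norm_num [Nat.factorial] at h2
  linarith

lemma ineq_pos {r : ℝ} (hr : 0 < r) :
    Mm (Bf r) (Real.cosh r) 1 * Real.log (Mm (Bf r) (Real.cosh r) 1 / 2)
      < Qm (Bf r) (Real.cosh r) 1 := by
  have hb0 := Bf_pos hr.le
  have hsh := sinh_lower hr.le
  have hB := Bf_pos' hr
  have hexp4 := Real.sum_le_exp_of_nonneg hr.le 5
  rw [Finset.sum_range_succ, Finset.sum_range_succ, Finset.sum_range_succ, Finset.sum_range_succ,
    Finset.sum_range_succ, Finset.sum_range_zero] at hexp4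
  norm_num [Nat.factorial] at hexp4
  rw [Qm_pos]
  set X := Real.exp r with hX
  have hX0 : 0 < X := Real.exp_pos r
  have hX1 : 1 < X := by
    have h1 : 0 < r + r ^ 2 / 2 + r ^ 3 / 6 + r ^ 4 / 24 := by positivity
    linarith
  have hXm : 0 < X - 1 := by linarith
  have hs : Real.sinh r = (X ^ 2 - 1) / (2 * X) := by
    rw [Real.sinh_eq, Real.exp_neg, ← hX]; field_simp
  have hc : Real.cosh r = (X ^ 2 + 1) / (2 * X) := by
    rw [Real.cosh_eq, Real.exp_neg, ← hX]; field_simp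
  have hX2 : 0 < X ^ 2 - 1 := by
    have h1 : X ^ 2 - 1 = (X - 1) * (X + 1) := by ring
    rw [h1]; positivity
  have hb : Bf r = 2 * r * X / (X ^ 2 - 1) := by
    rw [hB, hs]; field_simp
  set q : ℝ := 2 * r / (X - 1) with hq
  have hq0 : 0 < q := by rw [hq]; positivity
  have hqX : q * X = 2 * r + q := by rw [hq]; field_simp; ring
  have hqb : q * (1 + r / 2 + r ^ 2 / 6 + r ^ 3 / 24) ≤ 2 := by
    have h1 : q * (r * (1 + r / 2 + r ^ 2 / 6 + r ^ 3 / 24)) ≤ q * (X - 1) := by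
      apply mul_le_mul_of_nonneg_left _ hq0.le
      have h0 : r * (1 + r / 2 + r ^ 2 / 6 + r ^ 3 / 24)
          = r + r ^ 2 / 2 + r ^ 3 / 6 + r ^ 4 / 24 := by ring
      linarith
    have h2 : q * (X - 1) = 2 * r := by rw [hq]; field_simp
    rw [h2] at h1
    have h3 : r * (q * (1 + r / 2 + r ^ 2 / 6 + r ^ 3 / 24)) ≤ r * 2 := by linarith
    exact le_of_mul_le_mul_left h3 hr
  have hq2 : q ≤ 2 := by
    have : 0 ≤ q * (r / 2 + r ^ 2 / 6 + r ^ 3 / 24) := by positivity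
    linarith
  have hy : Bf r * (Real.cosh r + 1) = r + q := by
    have hX2' : X ^ 2 - 1 = (X - 1) * (X + 1) := by ring
    rw [hb, hc, hq, hX2']
    field_simp
    ring
  have hby : Bf r ^ 2 * (Real.cosh r + 1) = (2 * r + q) * q / 2 := by
    have hX2' : X ^ 2 - 1 = (X - 1) * (X + 1) := by ring
    rw [hb, hc, hq, hX2']
    field_simp
    ring
  set h := Real.cosh r with hh
  set b := Bf r with hbb
  set m : ℝ := h + (2 * r + q) * q / 2 + (r + q) with hm
  have hM : Mm b h 1 = 4 * m := by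
    unfold Mm
    rw [hm, ← hby, ← hy]
    ring
  rw [hM, hy]
  have hh1 : 1 ≤ h := Real.one_le_cosh r
  have hmpos : 0 < m := by
    rw [hm]; positivity
  have hsX : Real.sinh r = X - h := by rw [hs, hc]; field_simp; ring
  set W : ℝ := Real.sinh r + r + (2 * r + q) * (q ^ 2 / 6 + q ^ 3 / 24) with hW
  have hs0 : 0 < Real.sinh r := Real.sinh_pos_iff.2 hr
  have hW0 : 0 < W := by rw [hW]; positivity
  have hexpq := Real.sum_le_exp_of_nonneg hq0.le 5
  rw [Finset.sum_range_succ, Finset.sum_range_succ, Finset.sum_range_succ, Finset.sum_range_succ,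
    Finset.sum_range_succ, Finset.sum_range_zero] at hexpq
  norm_num [Nat.factorial] at hexpq
  have hE : m + W ≤ Real.exp (r + q) := by
    rw [Real.exp_add, ← hX]
    have h1 : X * (1 + q + q ^ 2 / 2 + q ^ 3 / 6 + q ^ 4 / 24) ≤ X * Real.exp q :=
      mul_le_mul_of_nonneg_left (by linarith) hX0.le
    refine le_trans (le_of_eq ?_) h1
    rw [hW, hm, hsX]
    linear_combination (-(1 + q / 2 + q ^ 2 / 6 + q ^ 3 / 24)) * hqX
  have hWm : W ≤ m := by
    have h1 : Real.sinh r ≤ h := (Real.sinh_lt_cosh r).le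
    have h2 : 0 ≤ (2 * r + q) * q * (2 - q) * (6 + q) := by
      have : 0 ≤ 2 - q := by linarith
      positivity
    have h3 : m - W = (h - Real.sinh r) + q + (2 * r + q) * q * (2 - q) * (6 + q) / 24 := by
      rw [hW, hm]; ring
    have h4 : 0 ≤ (2 * r + q) * q * (2 - q) * (6 + q) / 24 := by positivity
    linarith
  set E := Real.exp (r + q) with hEE
  have hE0 : 0 < E := Real.exp_pos _
  have hlog : Real.log (4 * m / 2) ≤ (r + q) + (2 * m / E - 1) := by
    have h1 : 4 * m / 2 = E * (2 * m / E) := by field_simp; ring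
    rw [h1, Real.log_mul hE0.ne' (by positivity), hEE, Real.log_exp, ← hEE]
    have := Real.log_le_sub_one_of_pos (by positivity : 0 < 2 * m / E)
    linarith
  have h1 := mul_le_mul_of_nonneg_left hlog (by positivity : 0 ≤ 4 * m)
  have h2 : 4 * W ≤ 8 * m - 8 * m ^ 2 / E := by
    have h3 : 8 * m ^ 2 / E ≤ 8 * m ^ 2 / (m + W) :=
      div_le_div_of_nonneg_left (by positivity) (by positivity) hE
    have h4 : 8 * m ^ 2 / (m + W) ≤ 8 * m - 4 * W := by
      rw [div_le_iff₀ (by positivity)]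
      have h5 := mul_nonneg hW0.le (sub_nonneg.2 hWm)
      linarith
    linarith
  have h3 : 4 * m * ((r + q) + (2 * m / E - 1)) = 4 * m * (r + q) + 8 * m ^ 2 / E - 4 * m := by
    field_simp
    ring
  rw [h3] at h1
  have h4 := poly_ineq hr hq0 hqb
  have h5 : 0 ≤ 2 * q - 2 / 3 * q ^ 3 + q ^ 4 / 6 := by
    have h6 : 2 * q - 2 / 3 * q ^ 3 + q ^ 4 / 6 = q * ((2 - q) * (12 + 6 * q - q ^ 2) / 12
        + 0) + q ^ 4 / 12 := by ring
    rw [h6]
    have h7 : 0 ≤ 12 + 6 * q - q ^ 2 := by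
      have h9 := mul_nonneg hq0.le (sub_nonneg.2 hq2)
      linarith
    have h8 : 0 ≤ 2 - q := by linarith
    positivity
  have h6 : 4 * W ≥ 4 * (r + r ^ 3 / 6 + r ^ 5 / 120) + 4 * r
      + (2 * r + q) * (2 / 3 * q ^ 2 + q ^ 3 / 6) := by
    rw [hW]; linarith
  have h7 : 0 < 4 * W + 2 / 3 + 2 * (r + q) - 4 / 3 * (r + q) ^ 3 := by linarith
  linarith

end Pool.Agent.H8.HS
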