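import Mathlib
import Pool.Agent.H8.HS.Ineq

/-!
# Case `n = 3` (`MP_ff17e6_an`): the real inequality, all directions
-/

set_option autoImplicit false

open Set

namespace Pool.Agent.H8.HS

lemma strong_cond {b h : ℝ} (hb0 : 0 < b) (hb1 : b ≤ 1) (hh : 1 ≤ h) :
    8 / 3 * b ^ 3 * Mm b h 1 ≤ (4 * (b ^ 2 + b * h)) ^ 2 := by
  unfold Mm
  have e : (4 * (b ^ 2 + b * h)) ^ 2 - 8 / 3 * b ^ 3 * (4 * (h + b ^ 2 * (h + 1) + b * (1 + 1 * h)))
      = 16 / 3 * b ^ 2 * (3 * (b + h) ^ 2 - 2 * b * (h + b ^ 2 * (h + 1) + b * (1 + h))) := by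
    ring
  have h1 : 0 ≤ 3 * (b + h) ^ 2 - 2 * b * (h + b ^ 2 * (h + 1) + b * (1 + h)) := by
    have a1 : 0 ≤ b * b * (1 - b) * (h + 1) := by
      have : 0 ≤ 1 - b := by linarith
      positivity
    have a2 : 0 ≤ b * (1 - b) * h := by
      have : 0 ≤ 1 - b := by linarith
      positivity
    have a3 : b ^ 2 ≤ h ^ 2 := by
      apply pow_le_pow_left₀ hb0.le
      linarith
    nlinarith
  have h2 : 0 ≤ 16 / 3 * b ^ 2 * (3 * (b + h) ^ 2 - 2 * b * (h + b ^ 2 * (h + 1) + b * (1 + h))) := by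
    positivity
  linarith

lemma Mm_ge {b h : ℝ} (hb0 : 0 < b) (hb1 : b ≤ 1) (hh : 1 ≤ h) : 4 ≤ Mm b h (-1) := by
  unfold Mm
  have a1 : 0 ≤ (h - 1) * (1 - b + b ^ 2) := by
    apply mul_nonneg (by linarith)
    nlinarith
  nlinarith

theorem main_ineq {r c : ℝ} (hr : 0 < r) (hc1 : -1 ≤ c) (hc2 : c ≤ 1) :
    0 < Mm (Bf r) (Real.cosh r) c ∧
    Mm (Bf r) (Real.cosh r) c * Real.log (Mm (Bf r) (Real.cosh r) c / 2)
      < Qm (Bf r) (Real.cosh r) c := by
  have hb0 := Bf_pos hr.le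
  have hb1 := Bf_le_one hr.le
  have hh := Real.one_le_cosh r
  have hn := ineq_neg hr
  have hp := ineq_pos hr
  set b := Bf r with hb
  set h := Real.cosh r with hhh
  have hMn := Mm_ge hb0 hb1 hh
  have hsc := strong_cond hb0 hb1 hh
  have hdiff : Mm b h 1 = Mm b h (-1) + 8 * (b ^ 2 + b * h) := by unfold Mm; ring
  have hbh : 0 < b ^ 2 + b * h := by positivity
  have hMp : Mm b h (-1) < Mm b h 1 := by rw [hdiff]; linarith
  have hMc : Mm b h c = Mm b h (-1) + (1 + c) * (4 * (b ^ 2 + b * h)) := by unfold Mm; ring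
  have hMc2 : Mm b h c = Mm b h 1 - (1 - c) * (4 * (b ^ 2 + b * h)) := by unfold Mm; ring
  have hpos : 0 < Mm b h c := by
    rw [hMc]
    have : 0 ≤ (1 + c) * (4 * (b ^ 2 + b * h)) := mul_nonneg (by linarith) (by positivity)
    linarith
  refine ⟨hpos, ?_⟩
  have hle : Mm b h c ≤ Mm b h 1 := by
    rw [hMc2]
    have : 0 ≤ (1 - c) * (4 * (b ^ 2 + b * h)) := mul_nonneg (by linarith) (by positivity)
    linarith
  rw [Qm_chord]
  set Mn := Mm b h (-1) with hMnn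
  set Mp := Mm b h 1 with hMpp
  set M := Mm b h c with hMM
  set K := 4 * (b ^ 2 + b * h) with hK
  have hMp0 : 0 < Mp := by linarith
  have hMn0 : 0 < Mn := by linarith
  have t1 := tangent hpos hMp0 hle (le_refl Mp)
  have t2 := tangent hpos hMn0 hle hMp.le
  have l1 : Real.log (Mp / 2) = Real.log Mp - Real.log 2 := Real.log_div hMp0.ne' two_ne_zero
  have l2 : Real.log (Mn / 2) = Real.log Mn - Real.log 2 := Real.log_div hMn0.ne' two_ne_zero
  have l3 : Real.log (M / 2) = Real.log M - Real.log 2 := Real.log_div hpos.ne' two_ne_zero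
  rw [l1] at hp
  rw [l2] at hn
  rw [l3]
  have d1 : Mp - M = (1 - c) * K := by rw [hMc2]; ring
  have d2 : Mn - M = -((1 + c) * K) := by rw [hMc]; ring
  rw [d1] at t1
  rw [d2] at t2
  have w1 : 0 ≤ (1 + c) / 2 := by linarith
  have w2 : 0 ≤ (1 - c) / 2 := by linarith
  have s1 := mul_le_mul_of_nonneg_left t1 w1
  have s2 := mul_le_mul_of_nonneg_left t2 w2
  have gap : 4 / 3 * b ^ 3 * (1 - c ^ 2) ≤ (1 - c ^ 2) * K ^ 2 / (2 * Mp) := by
    rw [le_div_iff₀ (by positivity)]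
    have h1 : 0 ≤ 1 - c ^ 2 := by nlinarith
    have h2 := mul_le_mul_of_nonneg_left hsc h1
    linarith
  have hsum : (1 + c) / 2 * (((1 - c) * K) ^ 2 / (2 * Mp))
      + (1 - c) / 2 * ((-((1 + c) * K)) ^ 2 / (2 * Mp)) = (1 - c ^ 2) * K ^ 2 / (2 * Mp) := by
    field_simp
    ring
  -- strictness
  have hst : 0 < (1 + c) / 2 * (Qm b h 1 - Mp * (Real.log Mp - Real.log 2))
      + (1 - c) / 2 * (Qm b h (-1) - Mn * (Real.log Mn - Real.log 2)) := by
    have e1 : 0 < Qm b h 1 - Mp * (Real.log Mp - Real.log 2) := by linarith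
    have e2 : 0 < Qm b h (-1) - Mn * (Real.log Mn - Real.log 2) := by linarith
    rcases w1.eq_or_lt with h1 | h1
    · have h2 : (1 - c) / 2 = 1 := by linarith
      rw [← h1, h2]; linarith
    · have h2 := mul_pos h1 e1
      have h3 := mul_nonneg w2 e2.le
      linarith
  have hMav : (1 + c) / 2 * Mp + (1 - c) / 2 * Mn = M := by
    linear_combination ((1 + c) / 2) * d1 + ((1 - c) / 2) * d2
  have hlin : (1 + c) / 2 * (Mp * Real.log 2) + (1 - c) / 2 * (Mn * Real.log 2)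
      = M * Real.log 2 := by
    rw [← hMav]; ring
  have e3 : (1 + c) / 2 * (M * Real.log M + (1 + Real.log M) * ((1 - c) * K)
        + ((1 - c) * K) ^ 2 / (2 * Mp))
      + (1 - c) / 2 * (M * Real.log M + (1 + Real.log M) * (-((1 + c) * K))
        + (-((1 + c) * K)) ^ 2 / (2 * Mp))
      = M * Real.log M + (1 - c ^ 2) * K ^ 2 / (2 * Mp) := by
    rw [← hsum]; ring
  have e4 : M * Real.log M + (1 - c ^ 2) * K ^ 2 / (2 * Mp)
      ≤ (1 + c) / 2 * (Mp * Real.log Mp) + (1 - c) / 2 * (Mn * Real.log Mn) := by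
    rw [← e3]; linarith
  have e5 : (1 + c) / 2 * (Qm b h 1 - Mp * (Real.log Mp - Real.log 2))
      + (1 - c) / 2 * (Qm b h (-1) - Mn * (Real.log Mn - Real.log 2))
      = (1 + c) / 2 * Qm b h 1 + (1 - c) / 2 * Qm b h (-1)
        - ((1 + c) / 2 * (Mp * Real.log Mp) + (1 - c) / 2 * (Mn * Real.log Mn))
        + ((1 + c) / 2 * (Mp * Real.log 2) + (1 - c) / 2 * (Mn * Real.log 2)) := by ring
  rw [e5, hlin] at hst
  have e6 : M * (Real.log M - Real.log 2) = M * Real.log M - M * Real.log 2 := by ring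
  rw [e6]
  linarith

end Pool.Agent.H8.HS
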