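import Mathlib
import Pool.Agent.H8.HS.Comb
import Pool.Agent.H8.HS.Bes

/-!
# Case `n = 3` (`MP_ff17e6_an`): the family of kernels
-/

set_option autoImplicit false

open Metric Set Filter Topology Polynomial

namespace Pool.Agent.H8.HS

open Pool.Agent.H82.NP

open ComplexConjugate

/-! ### algebra of the coefficients -/

section
variable {g b h c : ℝ} {a : ℂ}

lemma alg_N (hg : 2 * (g * h) = 1 + g ^ 2) (ha : a * conj a = 1) (hc : a + conj a = 2 * c) :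
    1 + (1 + b * (g + a)) * conj (1 + b * (g + a))
      + (b * (g + a) + g * a) * conj (b * (g + a) + g * a) + (g * a) * conj ((g : ℂ) * a)
      = (g : ℂ) * (Mm b h c : ℝ) := by
  have hg' : 2 * ((g : ℂ) * h) = 1 + (g : ℂ) ^ 2 := by exact_mod_cast hg
  unfold Mm
  simp only [map_add, map_mul, map_one, Complex.conj_ofReal]
  push_cast
  linear_combination (2 * (b : ℂ) ^ 2 + (g : ℂ) ^ 2 * 2 + 2 * b * g) * ha
    + ((b : ℂ) + 2 * (b : ℂ) ^ 2 * g + (b : ℂ) * (g : ℂ) ^ 2) * hc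
    - (2 + 2 * (b : ℂ) ^ 2 + 2 * (b : ℂ) * c) * hg'

lemma alg_A2 (hg : 2 * (g * h) = 1 + g ^ 2) (ha : a * conj a = 1) :
    conj (b * (g + a) + g * a) + (1 + b * (g + a)) * conj ((g : ℂ) * a)
      = (g : ℂ) * conj a * (2 * (1 + b * (h + a))) := by
  have hg' : 2 * ((g : ℂ) * h) = 1 + (g : ℂ) ^ 2 := by exact_mod_cast hg
  simp only [map_add, map_mul, Complex.conj_ofReal]
  linear_combination (-(b : ℂ) * g) * ha - ((b : ℂ) * conj a) * hg'

lemma alg_A1 (hg : 2 * (g * h) = 1 + g ^ 2) (ha : a * conj a = 1) (hc : a + conj a = 2 * c) :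
    conj (1 + b * (g + a)) + (1 + b * (g + a)) * conj (b * (g + a) + g * a)
      + (b * (g + a) + g * a) * conj ((g : ℂ) * a)
      = (g : ℂ) * (2 * h + conj a + 2 * b ^ 2 * (h + c) + 4 * b * (1 + h * conj a)) := by
  have hg' : 2 * ((g : ℂ) * h) = 1 + (g : ℂ) ^ 2 := by exact_mod_cast hg
  simp only [map_add, map_mul, map_one, Complex.conj_ofReal]
  linear_combination ((b : ℂ) ^ 2 + 2 * b * g + (g : ℂ) ^ 2) * ha + ((b : ℂ) ^ 2 * g) * hc
    - (1 + (b : ℂ) ^ 2 + 2 * (b : ℂ) * conj a) * hg'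

lemma alg_Q (ha : a * conj a = 1) (hc : a.re = c) :
    (2 * ((1 + b * (h + a)) * (2 * h + conj a + 2 * b ^ 2 * (h + c) + 4 * b * (1 + h * conj a)))
      - (4 / 3 : ℝ) * (conj a * (1 + b * (h + a)) ^ 3) : ℂ).re = Qm b h c := by
  have hd : a.im ^ 2 = 1 - c ^ 2 := by
    have h1 : (a * conj a).re = 1 := by rw [ha]; simp
    rw [Complex.mul_conj, Complex.normSq_apply, Complex.ofReal_re, hc] at h1
    linarith
  set d := a.im with hdd
  have hae : a = (c : ℂ) + (d : ℂ) * Complex.I := by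
    apply Complex.ext <;> simp [hc, hdd]
  have hac : conj a = (c : ℂ) - (d : ℂ) * Complex.I := by
    apply Complex.ext <;> simp [hc, hdd]
  have hI : Complex.I ^ 2 = -1 := Complex.I_sq
  -- real and imaginary parts
  have key : (2 * ((1 + b * (h + a)) * (2 * h + conj a + 2 * b ^ 2 * (h + c)
      + 4 * b * (1 + h * conj a))) - (4 / 3 : ℝ) * (conj a * (1 + b * (h + a)) ^ 3) : ℂ)
      = ((2 * ((1 + b * h + b * c) * (2 * h + c + 2 * b ^ 2 * (h + c) + 4 * b * (1 + h * c))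
          + b * d ^ 2 * (1 + 4 * b * h))
          - 4 / 3 * (c * (1 + b * h + b * c) ^ 3 - 3 * c * (1 + b * h + b * c) * (b ^ 2 * d ^ 2)
            + 3 * (1 + b * h + b * c) ^ 2 * b * d ^ 2 - b ^ 3 * d ^ 4) : ℝ) : ℂ)
        + ((2 * (b * d * (2 * h + c + 2 * b ^ 2 * (h + c) + 4 * b * (1 + h * c))
          - (1 + b * h + b * c) * d * (1 + 4 * b * h))
          - 4 / 3 * (c * (3 * (1 + b * h + b * c) ^ 2 * (b * d) - (b * d) ^ 3)
            - d * ((1 + b * h + b * c) ^ 3 - 3 * (1 + b * h + b * c) * (b * d) ^ 2)) : ℝ) : ℂ)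
          * Complex.I := by
    rw [hac, hae]
    push_cast
    have hI3 : Complex.I ^ 3 = -Complex.I := by
      rw [pow_succ, hI]; ring
    have hI4 : Complex.I ^ 4 = 1 := Complex.I_pow_four
    ring_nf
    rw [hI, hI3, hI4]
    ring
  rw [key, Complex.add_re, Complex.ofReal_re, Complex.re_ofReal_mul, Complex.I_re, mul_zero,
    add_zero]
  unfold Qm
  linear_combination (2 * b * (1 + 4 * b * h) + 4 * c * (1 + b * h + b * c) * b ^ 2
    - 4 * (1 + b * h + b * c) ^ 2 * b + 4 / 3 * b ^ 3 * (d ^ 2 + 1 - c ^ 2)) * hd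

end

/-! ### the comparison of `F₁` and the entropy -/

/-- algebraic identity behind `F₁ - Ent = 1 - Re (ā [z³] (P² S)) / N` -/
lemma alg_E (p1 p2 p3 r s : ℂ) (g : ℂ) (a : ℂ) (hs : s = p1 + r) (h3 : conj p3 = g * conj a)
    (h2 : conj p2 + p1 * conj p3 = g * conj a * (2 * s)) :
    2 * (s * (conj p1 + p1 * conj p2 + p2 * conj p3)) - 4 / 3 * (g * (conj a * s ^ 3))
      - 2 * (p1 * (conj p1 + p1 * conj p2 + p2 * conj p3)
        + (p2 - p1 ^ 2 / 2) * (conj p2 + p1 * conj p3)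
        + (p3 - p1 * p2 + p1 ^ 3 / 3) * conj p3)
      + conj a * (g * ((p3 + p2 * (2 * r) + p1 * (2 * r ^ 2 - 2 * r)
          + (4 / 3 * r ^ 3 - 4 * r ^ 2 + 2 * r)) + p1 * (p2 + p1 * (2 * r) + (2 * r ^ 2 - 2 * r))
          + p2 * (p1 + 2 * r) + p3))
      = 2 * r * ((conj p1 + p1 * conj p2 + p2 * conj p3) - (conj p2 + p1 * conj p3) + conj p3) := by
  rw [h2, h3, hs]
  ring

/-- the double zero at `-1` -/
lemma alg_zero (p1 p2 p3 : ℂ) (h : 1 - p1 + p2 - p3 = 0) :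
    1 + p1 * conj p1 + p2 * conj p2 + p3 * conj p3
      = ((conj p1 + p1 * conj p2 + p2 * conj p3) - (conj p2 + p1 * conj p3) + conj p3)
        + conj ((conj p1 + p1 * conj p2 + p2 * conj p3) - (conj p2 + p1 * conj p3) + conj p3) := by
  simp only [map_add, map_sub, map_mul, Complex.conj_conj]
  linear_combination (1 - conj p1 + conj p2 - conj p3) * h

lemma norm_le_of_bessel {p1 p2 p3 e0 e1 e2 e3 : ℂ} {N : ℝ}
    (hN : N = 1 + ‖p1‖ ^ 2 + ‖p2‖ ^ 2 + ‖p3‖ ^ 2)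
    (h : ‖e0‖ ^ 2 + ‖e1‖ ^ 2 + ‖e2‖ ^ 2 + ‖e3‖ ^ 2 ≤ N) :
    ‖e3 + p1 * e2 + p2 * e1 + p3 * e0‖ ≤ N := by
  have h1 : ‖e3 + p1 * e2 + p2 * e1 + p3 * e0‖ ≤ ‖e3‖ + ‖p1‖ * ‖e2‖ + ‖p2‖ * ‖e1‖ + ‖p3‖ * ‖e0‖ := by
    refine (norm_add_le _ _).trans ?_
    rw [norm_mul p3]
    refine add_le_add ((norm_add_le _ _).trans ?_) (le_refl _)
    rw [norm_mul p2]
    refine add_le_add ((norm_add_le _ _).trans ?_) (le_refl _)
    rw [norm_mul p1]
  have a0 := two_mul_le_add_sq ‖p3‖ ‖e0‖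
  have a1 := two_mul_le_add_sq ‖p2‖ ‖e1‖
  have a2 := two_mul_le_add_sq ‖p1‖ ‖e2‖
  have a3 := two_mul_le_add_sq 1 ‖e3‖
  linarith

/-- zero-free factor -/
lemma quad_ne {g b : ℝ} (hg0 : 0 < g) (hg1 : g < 1) (hb0 : 0 < b) (hb1 : b ≤ 1) {a Z : ℂ}
    (ha : ‖a‖ = 1) (hZ : ‖Z‖ < 1) : 1 + b * (g + a) * Z + g * a * Z ^ 2 ≠ 0 := by
  intro h
  set w : ℂ := a * Z with hw
  have hw1 : ‖w‖ < 1 := by rw [hw, norm_mul, ha, one_mul]; exact hZ
  have h1 : 1 + b * w = -(g * Z * (b + w)) := by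
    rw [hw]; linear_combination h
  have h2 : ‖(b : ℂ) + w‖ ^ 2 ≤ ‖1 + b * w‖ ^ 2 := by
    rw [← Complex.normSq_eq_norm_sq, ← Complex.normSq_eq_norm_sq]
    have e1 := Complex.normSq_eq_norm_sq w
    rw [Complex.normSq_apply] at e1
    have h3 : 0 ≤ (1 - b ^ 2) * (1 - ‖w‖ ^ 2) := by
      apply mul_nonneg
      · nlinarith
      · nlinarith [norm_nonneg w]
    rw [← e1] at h3
    simp only [Complex.normSq_apply, Complex.add_re, Complex.add_im, Complex.one_re, Complex.one_im,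
      Complex.mul_re, Complex.mul_im, Complex.ofReal_re, Complex.ofReal_im]
    nlinarith
  have h3 : ‖(b : ℂ) + w‖ ≤ ‖1 + b * w‖ :=
    (pow_le_pow_iff_left₀ (norm_nonneg _) (norm_nonneg _) two_ne_zero).1 h2
  have h4 : ‖1 + b * w‖ = g * ‖Z‖ * ‖(b : ℂ) + w‖ := by
    rw [h1, norm_neg, norm_mul, norm_mul, Complex.norm_real, Real.norm_eq_abs, abs_of_pos hg0]
  have h5 : g * ‖Z‖ < 1 := by nlinarith [norm_nonneg Z]
  have h6 : ‖1 + b * w‖ = 0 := by
    have h7 : 0 ≤ g * ‖Z‖ := by positivity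
    have h8 := norm_nonneg (1 + b * w)
    nlinarith
  have h7 : (b : ℂ) * w = -1 := by
    have := norm_eq_zero.1 h6
    linear_combination this
  have h8 : ‖(b : ℂ) * w‖ = 1 := by rw [h7, norm_neg, norm_one]
  rw [norm_mul, Complex.norm_real, Real.norm_eq_abs, abs_of_pos hb0] at h8
  nlinarith [norm_nonneg w]

end Pool.Agent.H8.HS
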