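import Mathlib
import Pool.Agent.H8.HS.Fam

/-!
# Case `n = 3` (`MP_ff17e6_an`): the bound outside the self-inversive region
-/

set_option autoImplicit false

open Metric Set Filter Topology Polynomial

namespace Pool.Agent.H8.HS

open Pool.Agent.H82.NP

open ComplexConjugate

/-- the cubic with coefficients `ρ p_k μ^k` -/
noncomputable def cub (ρ : ℝ) (μ p1 p2 p3 : ℂ) : ℂ[X] :=
  C (ρ : ℂ) * (C 1 + C (p1 * μ) * X + C (p2 * μ ^ 2) * X ^ 2 + C (p3 * μ ^ 3) * X ^ 3)

lemma cub_deg (ρ : ℝ) (μ p1 p2 p3 : ℂ) : (cub ρ μ p1 p2 p3).natDegree ≤ 3 := by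
  unfold cub
  compute_degree

lemma cub_0 (ρ : ℝ) (μ p1 p2 p3 : ℂ) : (cub ρ μ p1 p2 p3).coeff 0 = ρ := by
  unfold cub
  simp only [coeff_C_mul, coeff_add, coeff_X_pow, coeff_C, coeff_X]
  norm_num

lemma cub_1 (ρ : ℝ) (μ p1 p2 p3 : ℂ) : (cub ρ μ p1 p2 p3).coeff 1 = ρ * (p1 * μ) := by
  unfold cub
  simp only [coeff_C_mul, coeff_add, coeff_X_pow, coeff_C, coeff_X]
  norm_num

lemma cub_2 (ρ : ℝ) (μ p1 p2 p3 : ℂ) : (cub ρ μ p1 p2 p3).coeff 2 = ρ * (p2 * μ ^ 2) := by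
  unfold cub
  simp only [coeff_C_mul, coeff_add, coeff_X_pow, coeff_C, coeff_X]
  norm_num

lemma cub_3 (ρ : ℝ) (μ p1 p2 p3 : ℂ) : (cub ρ μ p1 p2 p3).coeff 3 = ρ * (p3 * μ ^ 3) := by
  unfold cub
  simp only [coeff_C_mul, coeff_add, coeff_X_pow, coeff_C, coeff_X]
  norm_num

lemma cub_eval (ρ : ℝ) (μ p1 p2 p3 z : ℂ) : (cub ρ μ p1 p2 p3).eval z
    = ρ * (1 + p1 * (μ * z) + p2 * (μ * z) ^ 2 + p3 * (μ * z) ^ 3) := by
  unfold cub
  simp only [eval_add, eval_mul, eval_C, eval_pow, eval_X]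
  ring

/-- **The bound for the half-jets of the family.** -/
theorem three_family (hLOG : T_LOG) {s : ℝ} (hs0 : 0 ≤ s) (hs1 : s < 1) {c : ℕ → ℂ}
    (hc : c ∈ CC 3 s) {α : ℂ} (hα : ‖α‖ = 1)
    (harg : ea c 3 * Complex.exp (-c 0) = (‖ea c 3 * Complex.exp (-c 0)‖ : ℂ) * α)
    {r : ℝ} (hr : 0 < r) {μ : ℂ} (hμ : ‖μ‖ = 1)
    (hc1 : c 1 = 2 * (Af r * μ + α * conj μ ^ 2 * Bf r)) :
    ‖ea c 3‖ < Real.exp (-(1 - s) * eps0) := by
  have hμ1 := conj_mul_self_one hμ
  have hb0 := Bf_pos hr.le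
  have hb1 := Bf_le_one hr.le
  set b := Bf r with hb
  set h := Real.cosh r with hh
  set g := Real.exp (-r) with hg
  have hg0 : 0 < g := Real.exp_pos _
  have hg1 : g < 1 := by rw [hg, Real.exp_lt_one_iff]; linarith
  have hgh : 2 * (g * h) = 1 + g ^ 2 := by
    rw [hh, Real.cosh_eq]
    have h1 : Real.exp r * g = 1 := by rw [hg, ← Real.exp_add]; simp
    linear_combination h1
  have hbs : b * (h - g) = r := by
    have h1 : h - g = Real.sinh r := by
      rw [hh, hg, Real.cosh_eq, Real.sinh_eq]; ring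
    rw [h1, hb, Bf_pos' hr]
    have h2 : Real.sinh r ≠ 0 := (Real.sinh_pos_iff.2 hr).ne'
    field_simp
  set a : ℂ := α * conj μ ^ 3 with ha
  have han : ‖a‖ = 1 := by
    rw [ha, norm_mul, norm_pow, RCLike.norm_conj, hα, hμ]; norm_num
  have haa : a * conj a = 1 := by rw [mul_comm]; exact conj_mul_self_one han
  set cc : ℝ := a.re with hcc
  have hac : a + conj a = 2 * cc := by
    rw [Complex.add_conj]; push_cast; rw [← hcc]
  have hcc1 : -1 ≤ cc := by
    have := Complex.abs_re_le_norm a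
    rw [han] at this
    exact (abs_le.1 this).1
  have hcc2 : cc ≤ 1 := by
    have := Complex.abs_re_le_norm a
    rw [han] at this
    exact (abs_le.1 this).2
  obtain ⟨hM0, hMQ⟩ := main_ineq hr hcc1 hcc2
  rw [← hb, ← hh] at hM0 hMQ
  set M := Mm b h cc with hM
  set N := g * M with hN
  have hN0 : 0 < N := mul_pos hg0 hM0
  set p1 : ℂ := 1 + b * (g + a) with hp1
  set p2 : ℂ := b * (g + a) + g * a with hp2
  set p3 : ℂ := g * a with hp3
  set S : ℂ := 1 + b * (h + a) with hS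
  set A1 : ℂ := conj p1 + p1 * conj p2 + p2 * conj p3 with hA1
  have eN : 1 + p1 * conj p1 + p2 * conj p2 + p3 * conj p3 = (N : ℂ) := by
    rw [hp1, hp2, hp3, alg_N hgh haa hac, hN]
    push_cast
    rfl
  have e3 : conj p3 = g * conj a := by rw [hp3, map_mul, Complex.conj_ofReal]
  have e2 : conj p2 + p1 * conj p3 = g * conj a * (2 * S) := by
    rw [hp1, hp2, hp3, alg_A2 hgh haa]
  have e1 : A1 = g * (2 * h + conj a + 2 * b ^ 2 * (h + cc) + 4 * b * (1 + h * conj a)) := by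
    rw [hA1, hp1, hp2, hp3, alg_A1 hgh haa hac]
  have hSr : S = p1 + r := by
    rw [hS, hp1]
    have : (b : ℂ) * (h - g) = r := by exact_mod_cast hbs
    linear_combination this
  set ρ : ℝ := 1 / Real.sqrt N with hρ
  have hsq : 0 < Real.sqrt N := Real.sqrt_pos.2 hN0
  have hρ0 : 0 < ρ := by rw [hρ]; positivity
  have hρN : ρ ^ 2 * N = 1 := by
    rw [hρ, div_pow, one_pow, Real.sq_sqrt hN0.le]
    field_simp
  set P := cub ρ μ p1 p2 p3 with hP
  have hPz : ∀ z : ℂ, ‖z‖ < 1 → P.eval z ≠ 0 := by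
    intro z hz
    rw [hP, cub_eval]
    have h1 : (1 : ℂ) + p1 * (μ * z) + p2 * (μ * z) ^ 2 + p3 * (μ * z) ^ 3
        = (1 + μ * z) * (1 + b * (g + a) * (μ * z) + g * a * (μ * z) ^ 2) := by
      rw [hp1, hp2, hp3]; ring
    have hz1 : ‖μ * z‖ < 1 := by rw [norm_mul, hμ, one_mul]; exact hz
    rw [h1]
    apply mul_ne_zero
    · exact_mod_cast hρ0.ne'
    · apply mul_ne_zero
      · intro h2
        have h3 : μ * z = -1 := by linear_combination h2
        rw [h3, norm_neg, norm_one] at hz1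
        exact lt_irrefl _ hz1
      · exact quad_ne hg0 hg1 hb0 hb1 han hz1
  obtain ⟨hAdm, a1, a2, a3, hent⟩ := ent_cubic hLOG (cub_deg ρ μ p1 p2 p3) hPz hρ0 hμ
    (cub_0 ρ μ p1 p2 p3) (cub_1 ρ μ p1 p2 p3) (cub_2 ρ μ p1 p2 p3) (cub_3 ρ μ p1 p2 p3) hρN eN.symm
  rw [← hP] at hAdm a1 a2 a3 hent
  rw [← hA1] at a1 hent
  have hMc : (M : ℂ) ≠ 0 := by exact_mod_cast hM0.ne'
  have hgc : (g : ℂ) ≠ 0 := by exact_mod_cast hg0.ne'
  have hNc : (N : ℂ) = g * M := by rw [hN]; push_cast; rfl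
  have hNc0 : (N : ℂ) ≠ 0 := by exact_mod_cast hN0.ne'
  have hαa : conj α = conj a * conj μ ^ 3 := by
    rw [ha, map_mul, map_pow, Complex.conj_conj]
    have h1 : μ ^ 3 * conj μ ^ 3 = 1 := by rw [← mul_pow, mul_comm μ, hμ1, one_pow]
    linear_combination (-(conj α)) * h1
  have hc1' : c 1 = 2 * S * μ := by
    rw [hc1, hS, ha]
    unfold Af
    rw [← hb, ← hh]
    push_cast
    linear_combination (-(2 * α * conj μ ^ 2 * b)) * hμ1
  have h3 : ac 3 P 3 = conj α / M := by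
    rw [a3, e3, hαa, hNc]
    field_simp
  have h2 : ac 3 P 2 = conj α * c 1 / M := by
    rw [a2, e2, hαa, hNc, hc1']
    have h4 : (g : ℂ) * conj a * (2 * S) * conj μ ^ 2 / (g * M)
        = conj a * (2 * S) * conj μ ^ 2 / M := by field_simp
    rw [h4, div_left_inj' hMc]
    linear_combination (-(conj a * 2 * S * conj μ ^ 2)) * hμ1
  have hfib := fibre hc hα harg hAdm hM0 h3 h2
  set ent0 := ent (TP 3 (ac 3 P)) with hent0
  set F1 : ℝ := 1 - Real.log M + (c 1 * ac 3 P 1).re - (conj α * c 1 ^ 3).re / (6 * M) with hF1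
  -- F₁ in terms of `Qm`
  have r1 : (c 1 * ac 3 P 1).re = (2 * (S * A1)).re / N := by
    have h4 : c 1 * ac 3 P 1 = ((1 / N : ℝ) : ℂ) * (2 * (S * A1)) := by
      rw [a1, hc1']
      push_cast
      linear_combination (2 * S * A1 / (N : ℂ)) * hμ1
    rw [h4, Complex.re_ofReal_mul]
    ring
  have r2 : (conj α * c 1 ^ 3).re = 8 * (conj a * S ^ 3).re := by
    have h4 : conj α * c 1 ^ 3 = ((8 : ℝ) : ℂ) * (conj a * S ^ 3) := by
      have h5 : conj μ ^ 3 * μ ^ 3 = 1 := by rw [← mul_pow, hμ1, one_pow]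
      rw [hαa, hc1']
      push_cast
      linear_combination (8 * conj a * S ^ 3) * h5
    rw [h4, Complex.re_ofReal_mul]
  have hF1' : F1 = 1 - Real.log M + Qm b h cc / M := by
    rw [hF1, r1, r2, ← alg_Q (b := b) (h := h) haa rfl, ← hcc, ← hS]
    have h4 : (2 * (S * A1)).re
        = g * (2 * (S * (2 * h + conj a + 2 * b ^ 2 * (h + cc) + 4 * b * (1 + h * conj a)))).re := by
      rw [← Complex.re_ofReal_mul, e1]
      congr 1
      ring
    rw [h4, Complex.sub_re, Complex.re_ofReal_mul, hN]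
    field_simp
    ring
  have hF1pos : eps0 < F1 := by
    rw [hF1', eps0]
    rw [Real.log_div hM0.ne' two_ne_zero] at hMQ
    have h4 : Real.log M - Real.log 2 < Qm b h cc / M := by
      rw [lt_div_iff₀ hM0]; linarith
    linarith
  -- comparison with the entropy
  have hcmp : ent0 ≤ F1 := by
    have hbes := bessel r hr.le p1 p2 p3
    rw [← hg] at hbes
    have hNr : N = 1 + ‖p1‖ ^ 2 + ‖p2‖ ^ 2 + ‖p3‖ ^ 2 := by
      have h4 := congrArg Complex.re eN
      rw [Complex.ofReal_re, Complex.add_re, Complex.add_re, Complex.add_re, Complex.mul_conj,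
        Complex.mul_conj, Complex.mul_conj, Complex.normSq_eq_norm_sq, Complex.normSq_eq_norm_sq,
        Complex.normSq_eq_norm_sq, Complex.ofReal_re, Complex.ofReal_re, Complex.ofReal_re,
        Complex.one_re] at h4
      exact h4.symm
    have hbn : ‖(g : ℂ) * 1‖ ^ 2 + ‖(g : ℂ) * (p1 + 2 * r)‖ ^ 2
        + ‖(g : ℂ) * (p2 + p1 * (2 * r) + (2 * r ^ 2 - 2 * r))‖ ^ 2
        + ‖(g : ℂ) * (p3 + p2 * (2 * r) + p1 * (2 * r ^ 2 - 2 * r)
          + (4 / 3 * r ^ 3 - 4 * r ^ 2 + 2 * r))‖ ^ 2 ≤ N := by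
      have hgn : ‖(g : ℂ)‖ = g := by
        rw [Complex.norm_real, Real.norm_eq_abs, abs_of_pos hg0]
      rw [norm_mul, norm_mul, norm_mul, norm_mul, hgn, norm_one, hNr]
      refine le_trans (le_of_eq ?_) hbes
      ring
    have hX := norm_le_of_bessel hNr hbn
    set X3 : ℂ := (g : ℂ) * (p3 + p2 * (2 * r) + p1 * (2 * r ^ 2 - 2 * r)
          + (4 / 3 * r ^ 3 - 4 * r ^ 2 + 2 * r))
        + p1 * ((g : ℂ) * (p2 + p1 * (2 * r) + (2 * r ^ 2 - 2 * r)))
        + p2 * ((g : ℂ) * (p1 + 2 * r)) + p3 * ((g : ℂ) * 1) with hX3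
    have hXre : (conj a * X3).re ≤ N := by
      calc (conj a * X3).re ≤ ‖conj a * X3‖ := Complex.re_le_norm _
        _ = ‖X3‖ := by rw [norm_mul, RCLike.norm_conj, han, one_mul]
        _ ≤ N := hX
    -- the identity
    set Z : ℂ := p1 * A1 + (p2 - p1 ^ 2 / 2) * (conj p2 + p1 * conj p3)
      + (p3 - p1 * p2 + p1 ^ 3 / 3) * conj p3 with hZ
    set T : ℂ := A1 - (conj p2 + p1 * conj p3) + conj p3 with hT
    have hE := alg_E p1 p2 p3 r S g a hSr e3 e2
    rw [← hA1, ← hZ, ← hT] at hE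
    have hE2 : 2 * (S * A1) - ((4 / 3 * g : ℝ) : ℂ) * (conj a * S ^ 3) - ((2 : ℝ) : ℂ) * Z
        + conj a * X3 = ((2 * r : ℝ) : ℂ) * T := by
      rw [hX3]
      push_cast
      linear_combination hE
    have hE3 := congrArg Complex.re hE2
    rw [Complex.add_re, Complex.sub_re, Complex.sub_re, Complex.re_ofReal_mul,
      Complex.re_ofReal_mul, Complex.re_ofReal_mul] at hE3
    have hzero := alg_zero p1 p2 p3 (by rw [hp1, hp2, hp3]; ring)
    rw [eN, ← hA1, ← hT] at hzero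
    have hT2 : N = 2 * T.re := by
      have h4 := congrArg Complex.re hzero
      rw [Complex.ofReal_re, Complex.add_re, Complex.conj_re] at h4
      linarith
    have hlogN : Real.log N = -r + Real.log M := by
      rw [hN, Real.log_mul hg0.ne' hM0.ne', hg, Real.log_exp]
    have hgM : g / N = 1 / M := by rw [hN]; field_simp
    have h5 : N * (F1 - ent0) = N - (conj a * X3).re := by
      rw [hF1, r1, r2, hent, hlogN]
      have h6 : N * (8 * (conj a * S ^ 3).re / (6 * M)) = 4 / 3 * g * (conj a * S ^ 3).re := by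
        rw [hN]; field_simp; ring
      have h7 : N * ((2 * (S * A1)).re / N) = (2 * (S * A1)).re := by field_simp
      have h8 : N * (2 / N * Z.re) = 2 * Z.re := by field_simp
      have h9 : N * (1 - Real.log M + (2 * (S * A1)).re / N - 8 * (conj a * S ^ 3).re / (6 * M)
          - (-(-r + Real.log M) + 2 / N * Z.re))
          = N - N * r + N * ((2 * (S * A1)).re / N) - N * (8 * (conj a * S ^ 3).re / (6 * M))
            - N * (2 / N * Z.re) := by ring
      rw [h9, h6, h7, h8]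
      have h10 : N * r = 2 * r * T.re := by rw [hT2]; ring
      linarith
    have h6 : 0 ≤ N * (F1 - ent0) := by rw [h5]; linarith
    have h7 := nonneg_of_mul_nonneg_right h6 hN0
    linarith
  refine lt_of_le_of_lt hfib (Real.exp_lt_exp.2 ?_)
  have h4 : s * (F1 - ent0) ≥ 0 := mul_nonneg hs0 (by linarith)
  have h5 : (1 - s) * eps0 < (1 - s) * F1 := mul_lt_mul_of_pos_left hF1pos (by linarith)
  nlinarith

end Pool.Agent.H8.HS
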