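import Mathlib
import Pool.Agent.H8.HS.Three

/-!
# Half sections and the third coefficient (`MP_ff17e6_an`): assembly
-/

set_option autoImplicit false

open Metric Set Filter Topology Polynomial

namespace Pool.Agent.H8.HS

open Pool.Agent.H82.Hp (co co_zero co_congr analyticAt_zero exists_log Np Fext value_eq mem_Np_hF
  co_Fext sparse)
open Pool.Agent.H82.NP

open ComplexConjugate

lemma value_eps {p q : ℝ} (hpq : 1 / p + 1 / q = 1) :
    (2 / Real.exp 1) ^ (1 / q) = Real.exp (-(1 - 1 / p) * eps0) := by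
  rw [value_eq hpq, eps0]
  congr 1
  ring

/-- the first coefficient of the square root of the candidate vanishes -/
lemma co_sqrt_zero {f S : ℂ → ℂ} (hf0 : f 0 ≠ 0) (hS : IsSqrt f S) {N : ℕ}
    (h : ∀ k, 1 ≤ k → k < N → co f k = 0) : ∀ k, 1 ≤ k → k < N → co S k = 0 := by
  intro k
  induction k using Nat.strong_induction_on with
  | _ k ih =>
    intro hk1 hk2
    have h1 := co_sq hS k
    rw [h k hk1 hk2, Finset.sum_range_succ, Nat.sub_self] at h1
    have h2 : ∑ j ∈ Finset.range k, co S j * co S (k - j) = co S k := by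
      rw [← Nat.sub_add_cancel hk1, Finset.sum_range_succ']
      have h3 : ∑ i ∈ Finset.range (k - 1), co S (i + 1) * co S (k - 1 + 1 - (i + 1)) = 0 := by
        apply Finset.sum_eq_zero
        intro i hi
        rw [Finset.mem_range] at hi
        rw [ih (i + 1) (by omega) (by omega) (by omega), zero_mul]
      rw [h3, co_zero, hS.2.1]
      simp
    rw [h2, co_zero, hS.2.1, mul_one] at h1
    have h4 : f 0 * (2 * co S k) = 0 := by linear_combination -h1
    rcases mul_eq_zero.1 h4 with h5 | h5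
    · exact absurd h5 hf0
    · exact (mul_eq_zero.1 h5).resolve_left two_ne_zero

/-- the candidate is in the class -/
lemma Fext_mem {p : ℝ} (hp : 1 < p) {n : ℕ} (hn : 1 ≤ n) : Fext p n 1 1 ∈ NpH p n := by
  have hmem := mem_Np_hF hp hn (c := 1) (γ := 1) norm_one norm_one
  obtain ⟨S, hS⟩ := exists_sqrt hmem.1 hmem.2.1
  apply mem_of_hsec hn hmem hS
  have h0 := co_sqrt_zero (hmem.2.1 0 (mem_ball_self one_pos)) hS (N := n)
    (co_Fext hp hn norm_one norm_one).1
  intro z _ hz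
  unfold hsec at hz
  rw [Finset.sum_eq_single 0] at hz
  · rw [wt_lt (by omega), co_zero, hS.2.1] at hz
    simp at hz
  · intro k hk hk0
    rw [Finset.mem_range] at hk
    by_cases h1 : k < n
    · rw [h0 k (by omega) h1]; ring
    · rw [wt_gt (by omega)]; ring
  · intro h1
    exact absurd (Finset.mem_range.2 (by omega)) h1

/-- the class of the half sections -/
theorem class_result {p q : ℝ} (hp : 1 < p) (hpq : 1 / p + 1 / q = 1) {n : ℕ} (hn : 1 ≤ n) :
    IsGreatest ((fun f => ‖co f n‖) '' NpH p n) ((2 / Real.exp 1) ^ (1 / q)) ∧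
    ∀ f ∈ NpH p n, ‖co f n‖ = (2 / Real.exp 1) ^ (1 / q) ↔
      ∃ c γ : ℂ, ‖c‖ = 1 ∧ ‖γ‖ = 1 ∧ EqOn f (Fext p n c γ) (ball 0 1) := by
  refine ⟨⟨?_, ?_⟩, ?_⟩
  · refine ⟨Fext p n 1 1, Fext_mem hp hn, ?_⟩
    simp only
    rw [(co_Fext hp hn norm_one norm_one).2, value_eq hpq]
  · rintro _ ⟨f, hf, rfl⟩
    rw [value_eps hpq]
    exact (bound hp hn hf).1
  · intro f hf
    constructor
    · intro heq
      have h1 := (bound hp hn hf).2 (by rw [heq, value_eps hpq])
      exact (sparse hp hn hf.1 h1).2.1 (by rw [heq, value_eq hpq])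
    · rintro ⟨c, γ, hc, hγ, heq⟩
      rw [co_congr heq, (co_Fext hp hn hc hγ).2, value_eq hpq]

/-- for `n = 3` a function is in the class or the inequality is strict -/
theorem three_or {p q : ℝ} (hp : 1 < p) (hpq : 1 / p + 1 / q = 1) {f : ℂ → ℂ} (hf : f ∈ Np p) :
    f ∈ NpH p 3 ∨ ‖co f 3‖ < (2 / Real.exp 1) ^ (1 / q) := by
  have hf0 : f 0 ≠ 0 := hf.2.1 0 (mem_ball_self one_pos)
  by_cases ha : co f 3 = 0
  · right
    rw [ha, norm_zero, value_eps hpq]
    exact Real.exp_pos _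
  obtain ⟨S, hS⟩ := exists_sqrt hf.1 hf.2.1
  have hne : co f 3 / f 0 ≠ 0 := div_ne_zero ha hf0
  have hn0 : (‖co f 3 / f 0‖ : ℂ) ≠ 0 := by exact_mod_cast (norm_pos_iff.2 hne).ne'
  set α : ℂ := co f 3 / f 0 / (‖co f 3 / f 0‖ : ℂ) with hα
  have hα1 : ‖α‖ = 1 := by
    rw [hα, norm_div, Complex.norm_real, norm_norm]
    exact div_self (norm_pos_iff.2 hne).ne'
  have harg : co f 3 = (‖co f 3 / f 0‖ : ℂ) * α * f 0 := by
    rw [hα]; field_simp
  rcases surj (co S 1) α hα1 with h | ⟨r, hr, μ, hμ, hw⟩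
  · left
    refine ⟨hf, S, α, hS, hα1, harg, fun z hz => ?_⟩
    rw [comp_three hS.2.1] at hz
    exact h z hz
  · right
    obtain ⟨h, hh, hfh, hfe, hlS⟩ := log_data hf.2.1 hS
    set c : ℕ → ℂ := fun k => co h k with hc
    have hcc : c ∈ CC 3 (1 / p) := npccT p hp.le f hf h hh hfh 3
    have hea : ∀ m, co f m = ea c m := eaOne f h hh hfh
    have hc0 : Complex.exp (-c 0) = (f 0)⁻¹ := by
      rw [Complex.exp_neg, hc]
      simp only
      rw [co_zero, hfe]
    have harg' : ea c 3 * Complex.exp (-c 0) = (‖ea c 3 * Complex.exp (-c 0)‖ : ℂ) * α := by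
      rw [hc0, ← hea 3, ← div_eq_mul_inv, hα]
      field_simp
    have hc1 : c 1 = 2 * (Af r * μ + α * conj μ ^ 2 * Bf r) := by
      have h1 := hlS 1
      rw [ea_one] at h1
      simp only [hlf, if_true, Complex.exp_zero, one_mul, if_neg one_ne_zero] at h1
      rw [← hw, ← h1, hc]
      ring
    have hs0 : 0 ≤ 1 / p := by positivity
    have hs1 : 1 / p < 1 := by rw [div_lt_one (by linarith)]; exact hp
    rw [hea 3, value_eps hpq]
    exact three_family logT hs0 hs1 hcc hα1 harg' hr hμ hc1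

/-- the third coefficient -/
theorem three_result {p q : ℝ} (hp : 1 < p) (hpq : 1 / p + 1 / q = 1) :
    IsGreatest ((fun f => ‖co f 3‖) '' Np p) ((2 / Real.exp 1) ^ (1 / q)) ∧
    ∀ f ∈ Np p, ‖co f 3‖ = (2 / Real.exp 1) ^ (1 / q) ↔
      ∃ c γ : ℂ, ‖c‖ = 1 ∧ ‖γ‖ = 1 ∧ EqOn f (Fext p 3 c γ) (ball 0 1) := by
  obtain ⟨⟨⟨f0, hf0, hv⟩, hb⟩, he⟩ := class_result hp hpq (n := 3) (by norm_num)
  refine ⟨⟨⟨f0, hf0.1, hv⟩, ?_⟩, ?_⟩
  · rintro _ ⟨f, hf, rfl⟩
    rcases three_or hp hpq hf with h | h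
    · exact hb ⟨f, h, rfl⟩
    · exact h.le
  · intro f hf
    constructor
    · intro heq
      rcases three_or hp hpq hf with h | h
      · exact (he f h).1 heq
      · exact absurd heq h.ne
    · rintro ⟨c, γ, hc, hγ, heq⟩
      rw [co_congr heq, (co_Fext hp (by norm_num) hc hγ).2, value_eq hpq]

end Pool.Agent.H8.HS
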